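import Mathlib

/-!
Pseudo-expectations on the labelings of a finite set of vertices.
-/

open scoped BigOperators

namespace Pool.Agent.Lib.P325u

/-- The functions of the labelings `V → Ω` of degree at most `r`: the sums of functions each of
which depends on the labels of at most `r` vertices only. -/
def degreeLE (V Ω : Type) (r : ℕ) : Submodule ℝ ((V → Ω) → ℝ) :=
  Submodule.span ℝ {f | ∃ D : Finset V, D.card ≤ r ∧ DependsOn f (D : Set V)}

/-- A pseudo-expectation of degree `r` (a solution of the sum-of-squares relaxation of degree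
`2 r`) on the labelings `V → Ω`: a linear functional with `E 1 = 1` and `E f ^ 2 ≥ 0` for every
function `f` of degree at most `r`. -/
structure IsPseudoExpectation {V Ω : Type} (r : ℕ) (E : ((V → Ω) → ℝ) →ₗ[ℝ] ℝ) : Prop where
  one : E (fun _ => 1) = 1
  sq_nonneg : ∀ f ∈ degreeLE V Ω r, 0 ≤ E (fun σ => f σ ^ 2)

end Pool.Agent.Lib.P325u
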