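import Mathlib
import Pool.Agent.Lib.P325u.Defs

/-!
Conditional covariances of a pseudo-expectation.
-/

open scoped BigOperators

namespace Pool.Agent.Lib.P325u

variable {V Ω : Type}

theorem mem_degreeLE {r : ℕ} {f : (V → Ω) → ℝ} (D : Finset V) (hD : D.card ≤ r)
    (hf : DependsOn f (D : Set V)) : f ∈ degreeLE V Ω r :=
  Submodule.subset_span ⟨D, hD, hf⟩

/-- A pointwise nonnegative function of at most `r` labels has nonnegative pseudo-expectation. -/
theorem IsPseudoExpectation.nonneg {r : ℕ} {E : ((V → Ω) → ℝ) →ₗ[ℝ] ℝ}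
    (hE : IsPseudoExpectation r E) (f : (V → Ω) → ℝ) (D : Finset V) (hD : D.card ≤ r)
    (hf : DependsOn f (D : Set V)) (h0 : ∀ σ, 0 ≤ f σ) : 0 ≤ E f := by
  have h1 := hE.sq_nonneg (fun σ => √(f σ)) (mem_degreeLE D hD (fun σ σ' h => by
    show √(f σ) = √(f σ')
    rw [hf h]))
  have h2 : (fun σ => √(f σ) ^ 2) = f := by
    funext σ
    exact Real.sq_sqrt (h0 σ)
  rwa [h2] at h1

/-- The indicator function of the event that `x` has the label `a`. -/
noncomputable def ind [DecidableEq Ω] (x : V) (a : Ω) : (V → Ω) → ℝ :=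
  fun σ => if σ x = a then 1 else 0

/-- A partition of the labelings into 0-1 functions of the labels of the vertices in `D`. -/
structure IsPart {κ : Type} [Fintype κ] (P : κ → (V → Ω) → ℝ) (D : Finset V) : Prop where
  idem : ∀ α σ, P α σ * P α σ = P α σ
  sum_one : ∀ σ, ∑ α, P α σ = 1
  dep : ∀ α, DependsOn (P α) (D : Set V)

/-- The average over `α` of the conditional covariance of `F` and `G` given `P α`. -/
noncomputable def cov {κ : Type} [Fintype κ] (E : ((V → Ω) → ℝ) →ₗ[ℝ] ℝ)
    (P : κ → (V → Ω) → ℝ) (F G : (V → Ω) → ℝ) : ℝ :=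
  ∑ α, (E (P α * F * G) - E (P α * F) * E (P α * G) / E (P α))

section basic

variable {κ : Type} [Fintype κ] {E : ((V → Ω) → ℝ) →ₗ[ℝ] ℝ} {P : κ → (V → Ω) → ℝ}
  {D : Finset V} {r : ℕ}

theorem IsPart.zero_or_one (hP : IsPart P D) (α : κ) (σ : V → Ω) : P α σ = 0 ∨ P α σ = 1 := by
  have h := hP.idem α σ
  have : P α σ * (P α σ - 1) = 0 := by linarith
  rcases mul_eq_zero.1 this with h1 | h1
  · exact Or.inl h1
  · exact Or.inr (by linarith)

theorem IsPart.nonneg (hP : IsPart P D) (α : κ) (σ : V → Ω) : 0 ≤ P α σ := by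
  rcases hP.zero_or_one α σ with h | h <;> rw [h]
  exact zero_le_one

theorem IsPart.sum_E (hP : IsPart P D) (hE : IsPseudoExpectation r E) :
    ∑ α, E (P α) = 1 := by
  rw [← map_sum, ← hE.one]
  congr 1
  funext σ
  rw [Finset.sum_apply]
  exact hP.sum_one σ

theorem IsPart.E_nonneg (hP : IsPart P D) (hE : IsPseudoExpectation r E) (hD : D.card ≤ r)
    (α : κ) : 0 ≤ E (P α) :=
  hE.nonneg _ D hD (hP.dep α) (hP.nonneg α)

/-- `P α * F` has degree at most `card D + 1` if `F` is of degree 1. -/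
theorem IsPart.mul_mem [DecidableEq V] (hP : IsPart P D) (hD : D.card + 1 ≤ r)
    {F : (V → Ω) → ℝ} (hF : F ∈ degreeLE V Ω 1) (α : κ) : P α * F ∈ degreeLE V Ω r := by
  unfold degreeLE at hF
  induction hF using Submodule.span_induction with
  | mem f hf =>
    obtain ⟨D', hD', hf⟩ := hf
    apply mem_degreeLE (D ∪ D')
    · exact (Finset.card_union_le _ _).trans (by omega)
    · intro σ σ' h
      show P α σ * f σ = P α σ' * f σ'
      rw [hP.dep α (fun i hi => h i (by
        have : i ∈ D := hi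
        show i ∈ ((D ∪ D' : Finset V) : Set V)
        exact Finset.mem_coe.2 (Finset.mem_union_left _ this))),
        hf (fun i hi => h i (by
        have : i ∈ D' := hi
        show i ∈ ((D ∪ D' : Finset V) : Set V)
        exact Finset.mem_coe.2 (Finset.mem_union_right _ this)))]
  | zero => rw [mul_zero]; exact Submodule.zero_mem _
  | add x y _ _ hx hy => rw [mul_add]; exact Submodule.add_mem _ hx hy
  | smul c x _ hx => rw [mul_smul_comm]; exact Submodule.smul_mem _ c hx

theorem IsPart.self_mem (hP : IsPart P D) (hD : D.card ≤ r) (α : κ) :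
    P α ∈ degreeLE V Ω r := mem_degreeLE D hD (hP.dep α)

/-- `E (P F ^ 2) - 2 c E (P F) + c ^ 2 E P ≥ 0`. -/
theorem IsPart.quad_nonneg [DecidableEq V] (hP : IsPart P D) (hE : IsPseudoExpectation r E)
    (hD : D.card + 1 ≤ r) {F : (V → Ω) → ℝ} (hF : F ∈ degreeLE V Ω 1) (α : κ) (c : ℝ) :
    0 ≤ E (P α * F * F) - 2 * c * E (P α * F) + c ^ 2 * E (P α) := by
  have h1 := hE.sq_nonneg (P α * F - c • P α)
    (Submodule.sub_mem _ (hP.mul_mem hD hF α)
      (Submodule.smul_mem _ c (hP.self_mem (by omega) α)))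
  have h2 : (fun σ => (P α * F - c • P α) σ ^ 2) =
      P α * F * F - (2 * c) • (P α * F) + (c ^ 2) • P α := by
    funext σ
    have h := hP.idem α σ
    simp only [Pi.sub_apply, Pi.mul_apply, Pi.smul_apply, smul_eq_mul, Pi.add_apply]
    have : (P α σ * F σ - c * P α σ) ^ 2 = (P α σ * P α σ) * (F σ - c) ^ 2 := by ring
    rw [this, h]
    ring
  rw [h2, map_add, map_sub, map_smul, map_smul] at h1
  simpa [smul_eq_mul] using h1

/-- If `E (P α) = 0` then `E (P α * F) = 0`. -/
theorem IsPart.E_mul_eq_zero [DecidableEq V] (hP : IsPart P D) (hE : IsPseudoExpectation r E)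
    (hD : D.card + 1 ≤ r) {F : (V → Ω) → ℝ} (hF : F ∈ degreeLE V Ω 1) (α : κ)
    (h0 : E (P α) = 0) : E (P α * F) = 0 := by
  by_contra hne
  set u := E (P α * F * F) with hu
  set y := E (P α * F) with hy
  have h1 := hP.quad_nonneg hE hD hF α ((u + 1) / (2 * y))
  rw [h0, mul_zero, add_zero, ← hu, ← hy] at h1
  have h2 : 2 * ((u + 1) / (2 * y)) * y = u + 1 := by field_simp
  rw [h2] at h1
  linarith

/-- The conditional variance given `P α` is nonnegative. -/
theorem IsPart.term_nonneg [DecidableEq V] (hP : IsPart P D) (hE : IsPseudoExpectation r E)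
    (hD : D.card + 1 ≤ r) {F : (V → Ω) → ℝ} (hF : F ∈ degreeLE V Ω 1) (α : κ) :
    0 ≤ E (P α * F * F) - E (P α * F) * E (P α * F) / E (P α) := by
  rcases (hP.E_nonneg hE (by omega) α).lt_or_eq with h | h
  · have h1 := hP.quad_nonneg hE hD hF α (E (P α * F) / E (P α))
    have h2 : E (P α * F * F) - 2 * (E (P α * F) / E (P α)) * E (P α * F) +
        (E (P α * F) / E (P α)) ^ 2 * E (P α) =
        E (P α * F * F) - E (P α * F) * E (P α * F) / E (P α) := by
      field_simp
      ring
    rwa [h2] at h1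
  · have h1 := hP.E_mul_eq_zero hE hD hF α h.symm
    have h2 := hP.quad_nonneg hE hD hF α 0
    rw [h1]
    simpa using h2

theorem IsPart.cov_self_nonneg [DecidableEq V] (hP : IsPart P D) (hE : IsPseudoExpectation r E)
    (hD : D.card + 1 ≤ r) {F : (V → Ω) → ℝ} (hF : F ∈ degreeLE V Ω 1) : 0 ≤ cov E P F F :=
  Finset.sum_nonneg (fun α _ => hP.term_nonneg hE hD hF α)

/-- the sum over the partition of `E (P α * F)` is `E F` -/
theorem IsPart.sum_mul (hP : IsPart P D) (F : (V → Ω) → ℝ) : ∑ α, E (P α * F) = E F := by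
  rw [← map_sum, ← Finset.sum_mul]
  congr 1
  funext σ
  rw [Pi.mul_apply, Finset.sum_apply, hP.sum_one, one_mul]

/-- The conditional variance is at most the second moment. -/
theorem IsPart.cov_self_le (hP : IsPart P D) (hE : IsPseudoExpectation r E)
    (hD : D.card ≤ r) (F : (V → Ω) → ℝ) : cov E P F F ≤ E (F * F) := by
  rw [← hP.sum_mul (E := E) (F * F)]
  apply Finset.sum_le_sum
  intro α _
  have h1 : 0 ≤ E (P α * F) * E (P α * F) / E (P α) :=
    div_nonneg (mul_self_nonneg _) (hP.E_nonneg hE hD α)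
  rw [mul_assoc]
  linarith

theorem cov_comm (F G : (V → Ω) → ℝ) : cov E P F G = cov E P G F := by
  unfold cov
  apply Finset.sum_congr rfl
  intro α _
  rw [mul_right_comm, mul_comm (E (P α * F))]

theorem cov_add_left (F F' G : (V → Ω) → ℝ) :
    cov E P (F + F') G = cov E P F G + cov E P F' G := by
  unfold cov
  rw [← Finset.sum_add_distrib]
  apply Finset.sum_congr rfl
  intro α _
  rw [mul_add, add_mul, map_add, map_add]
  ring

theorem cov_smul_left (c : ℝ) (F G : (V → Ω) → ℝ) :
    cov E P (c • F) G = c * cov E P F G := by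
  unfold cov
  rw [Finset.mul_sum]
  apply Finset.sum_congr rfl
  intro α _
  rw [mul_smul_comm, smul_mul_assoc, map_smul, map_smul, smul_eq_mul, smul_eq_mul]
  ring

theorem cov_zero_left (G : (V → Ω) → ℝ) : cov E P 0 G = 0 := by
  unfold cov
  simp

theorem cov_sum_left {ι : Type} (A : Finset ι) (F : ι → (V → Ω) → ℝ) (G : (V → Ω) → ℝ) :
    cov E P (∑ i ∈ A, F i) G = ∑ i ∈ A, cov E P (F i) G := by
  classical
  induction A using Finset.induction_on with
  | empty => simp [cov_zero_left]
  | insert i A hi ih => rw [Finset.sum_insert hi, Finset.sum_insert hi, cov_add_left, ih]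

theorem cov_sum_right {ι : Type} (A : Finset ι) (F : ι → (V → Ω) → ℝ) (G : (V → Ω) → ℝ) :
    cov E P G (∑ i ∈ A, F i) = ∑ i ∈ A, cov E P G (F i) := by
  rw [cov_comm, cov_sum_left]
  exact Finset.sum_congr rfl (fun i _ => cov_comm _ _)

theorem cov_smul_right (c : ℝ) (F G : (V → Ω) → ℝ) :
    cov E P F (c • G) = c * cov E P F G := by
  rw [cov_comm, cov_smul_left, cov_comm]

theorem cov_sub_sub (F G : (V → Ω) → ℝ) :
    cov E P (F - G) (F - G) = cov E P F F + cov E P G G - 2 * cov E P F G := by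
  have h1 : F - G = F + (-1 : ℝ) • G := by
    funext σ
    simp [sub_eq_add_neg]
  rw [h1, cov_add_left, cov_smul_left, cov_comm F (F + (-1 : ℝ) • G),
    cov_comm G (F + (-1 : ℝ) • G), cov_add_left, cov_add_left, cov_smul_left, cov_smul_left,
    cov_comm G F]
  ring

end basic

section indicators

variable [DecidableEq Ω] {κ : Type} [Fintype κ] {E : ((V → Ω) → ℝ) →ₗ[ℝ] ℝ}
  {P : κ → (V → Ω) → ℝ} {D : Finset V} {r : ℕ}

theorem ind_mem (x : V) (a : Ω) : ind x a ∈ degreeLE V Ω 1 := by
  apply mem_degreeLE {x} (by simp)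
  intro σ σ' h
  have : σ x = σ' x := h x (by simp)
  unfold ind
  rw [this]

theorem ind_mul_self (x : V) (a : Ω) : (ind x a : (V → Ω) → ℝ) * ind x a = ind x a := by
  funext σ
  simp only [Pi.mul_apply, ind]
  split_ifs <;> simp

theorem ind_nonneg (x : V) (a : Ω) (σ : V → Ω) : 0 ≤ ind x a σ := by
  unfold ind
  split_ifs <;> norm_num

theorem sum_ind [Fintype Ω] (x : V) (σ : V → Ω) : ∑ a, ind x a σ = 1 := by
  unfold ind
  simp

theorem E_ind_nonneg (hE : IsPseudoExpectation r E) (hr : 1 ≤ r) (x : V) (a : Ω) :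
    0 ≤ E (ind x a) := by
  apply hE.nonneg _ {x} (by simpa using hr) _ (ind_nonneg x a)
  intro σ σ' h
  have : σ x = σ' x := h x (by simp)
  unfold ind
  rw [this]

theorem sum_E_ind [Fintype Ω] (hE : IsPseudoExpectation r E) (x : V) :
    ∑ a, E (ind x a) = 1 := by
  rw [← map_sum, ← hE.one]
  congr 1
  funext σ
  rw [Finset.sum_apply]
  exact sum_ind x σ

/-- Refining a partition by the label of `w`. -/
theorem IsPart.refine [DecidableEq V] [Fintype Ω] (hP : IsPart P D) (w : V) :
    IsPart (fun q : κ × Ω => P q.1 * ind w q.2) (insert w D) where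
  idem := by
    intro q σ
    have h1 := hP.idem q.1 σ
    have h2 : ind w q.2 σ * ind w q.2 σ = ind w q.2 σ := by
      have := congrFun (ind_mul_self w q.2) σ
      simpa using this
    simp only [Pi.mul_apply]
    calc P q.1 σ * ind w q.2 σ * (P q.1 σ * ind w q.2 σ) =
        (P q.1 σ * P q.1 σ) * (ind w q.2 σ * ind w q.2 σ) := by ring
      _ = _ := by rw [h1, h2]
  sum_one := by
    intro σ
    rw [Fintype.sum_prod_type]
    simp only [Pi.mul_apply]
    simp_rw [← Finset.mul_sum, sum_ind, mul_one]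
    exact hP.sum_one σ
  dep := by
    intro q σ σ' h
    show P q.1 σ * ind w q.2 σ = P q.1 σ' * ind w q.2 σ'
    rw [hP.dep q.1 (fun i hi => h i (by
      have : i ∈ D := hi
      show i ∈ ((insert w D : Finset V) : Set V)
      exact Finset.mem_coe.2 (Finset.mem_insert_of_mem this)))]
    have : σ w = σ' w := h w (by
      show w ∈ ((insert w D : Finset V) : Set V)
      exact Finset.mem_coe.2 (Finset.mem_insert_self _ _))
    unfold ind
    rw [this]

/-- The gain of the refinement by the label of `w`. -/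
theorem IsPart.gain [DecidableEq V] [Fintype Ω] (hP : IsPart P D)
    (hE : IsPseudoExpectation r E) (hD : D.card + 2 ≤ r) {F : (V → Ω) → ℝ}
    (hF : F ∈ degreeLE V Ω 1) (w : V) :
    ∑ b, cov E P F (ind w b) ^ 2 / E (ind w b) ≤
      cov E P F F - cov E (fun q : κ × Ω => P q.1 * ind w q.2) F F := by
  set P' : κ × Ω → (V → Ω) → ℝ := fun q => P q.1 * ind w q.2 with hP'def
  have hP' : IsPart P' (insert w D) := hP.refine w
  have hD' : (insert w D : Finset V).card + 1 ≤ r := by
    have := Finset.card_insert_le w D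
    omega
  have hp0 : ∀ α, 0 ≤ E (P α) := fun α => hP.E_nonneg hE (by omega) α
  have hp0' : ∀ q, 0 ≤ E (P' q) := fun q => hP'.E_nonneg hE (by omega) q
  -- names
  set pp : κ → Ω → ℝ := fun α b => E (P' (α, b)) with hpp
  set xx : κ → Ω → ℝ := fun α b => E (P' (α, b) * F) with hxx
  have hsum_p : ∀ α, ∑ b, pp α b = E (P α) := by
    intro α
    simp only [hpp, hP'def]
    rw [← map_sum, ← Finset.mul_sum]
    congr 1
    funext σ
    rw [Pi.mul_apply, Finset.sum_apply, sum_ind, mul_one]
  have hsum_x : ∀ α, ∑ b, xx α b = E (P α * F) := by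
    intro α
    simp only [hxx, hP'def]
    rw [← map_sum]
    congr 1
    funext σ
    simp only [Finset.sum_apply, Pi.mul_apply]
    have : ∀ b, P α σ * ind w b σ * F σ = (P α σ * F σ) * ind w b σ := fun b => by ring
    simp_rw [this]
    rw [← Finset.mul_sum, sum_ind, mul_one]
  have hxz : ∀ α b, pp α b = 0 → xx α b = 0 := fun α b h =>
    hP'.E_mul_eq_zero hE hD' hF (α, b) h
  have hxz' : ∀ α, E (P α) = 0 → E (P α * F) = 0 := fun α h =>
    hP.E_mul_eq_zero hE (by omega) hF α h
  -- y = x_b - p_b x / p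
  set y : κ → Ω → ℝ := fun α b => xx α b - pp α b * E (P α * F) / E (P α) with hy
  -- the right hand side
  have hR : cov E P F F - cov E P' F F = ∑ α, ∑ b, y α b ^ 2 / pp α b := by
    have h1 : ∑ α, E (P α * F * F) = ∑ q, E (P' q * F * F) := by
      have e1 : ∑ α, E (P α * F * F) = E (F * F) := by
        simp_rw [mul_assoc]
        exact hP.sum_mul (F * F)
      have e2 : ∑ q, E (P' q * F * F) = E (F * F) := by
        simp_rw [mul_assoc]
        exact hP'.sum_mul (F * F)
      rw [e1, e2]
    unfold cov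
    rw [Finset.sum_sub_distrib, Finset.sum_sub_distrib, h1, sub_sub_sub_cancel_left,
      Fintype.sum_prod_type, ← Finset.sum_sub_distrib]
    apply Finset.sum_congr rfl
    intro α _
    have hexp : ∀ b, y α b ^ 2 / pp α b = xx α b * xx α b / pp α b -
        2 * (E (P α * F) / E (P α)) * xx α b +
        (E (P α * F) / E (P α)) ^ 2 * pp α b := by
      intro b
      by_cases hpb : pp α b = 0
      · rw [hxz α b hpb, hpb]
        simp
      · simp only [hy]
        by_cases hpa : E (P α) = 0
        · rw [hpa]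
          simp
          ring
        · field_simp
          ring
    simp_rw [hexp]
    rw [Finset.sum_add_distrib, Finset.sum_sub_distrib, ← Finset.mul_sum, ← Finset.mul_sum,
      hsum_x, hsum_p]
    by_cases hpa : E (P α) = 0
    · rw [hxz' α hpa, hpa]
      simp [hxx, hpp]
    · simp only [hxx, hpp]
      field_simp
      ring
  -- the covariance
  have hcov : ∀ b, cov E P F (ind w b) = ∑ α, y α b := by
    intro b
    unfold cov
    apply Finset.sum_congr rfl
    intro α _
    simp only [hy, hxx, hpp, hP'def]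
    rw [mul_right_comm (P α) F (ind w b), mul_comm (E (P α * F)) (E (P α * ind w b))]
  have hkap : ∀ b, ∑ α, pp α b = E (ind w b) := by
    intro b
    simp only [hpp, hP'def]
    exact hP.sum_mul (ind w b)
  rw [hR, Finset.sum_comm]
  apply Finset.sum_le_sum
  intro b _
  rw [hcov, ← hkap]
  -- Titu
  have hyz : ∀ α, pp α b = 0 → y α b = 0 := by
    intro α h
    simp only [hy]
    rw [hxz α b h, h]
    simp
  by_cases hS : ∑ α, pp α b = 0
  · rw [hS, div_zero]
    apply Finset.sum_nonneg
    intro α _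
    exact div_nonneg (sq_nonneg _) (hp0' (α, b))
  · have hSpos : 0 < ∑ α, pp α b :=
      lt_of_le_of_ne (Finset.sum_nonneg (fun α _ => hp0' (α, b))) (Ne.symm hS)
    rw [div_le_iff₀ hSpos]
    have hcs := Finset.sum_mul_sq_le_sq_mul_sq Finset.univ
      (fun α => y α b / √(pp α b)) (fun α => √(pp α b))
    have e1 : ∀ α, y α b / √(pp α b) * √(pp α b) = y α b := by
      intro α
      rcases (hp0' (α, b)).lt_or_eq with h | h
      · have : √(pp α b) ≠ 0 := (Real.sqrt_pos.2 h).ne'
        field_simp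
      · rw [hyz α h.symm]
        simp
    have e2 : ∀ α, (y α b / √(pp α b)) ^ 2 = y α b ^ 2 / pp α b := by
      intro α
      rw [div_pow, Real.sq_sqrt (hp0' (α, b))]
    have e3 : ∀ α, √(pp α b) ^ 2 = pp α b := fun α => Real.sq_sqrt (hp0' (α, b))
    simp only [e1, e2, e3] at hcs
    exact hcs

end indicators

end Pool.Agent.Lib.P325u
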