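import Mathlib
import Pool.Agent.Lib.P325u.Loop
import Pool.Agent.Lib.P325s.Kern

/-!
One part of the soft decomposition: conditioning makes its variance small.
-/

open scoped BigOperators
open Pool.Agent.Lib.P325s (kern_bound kMass kEnergy kCorr)

namespace Pool.Agent.Lib.P325u

section

variable {V Ω : Type} [Fintype V] [DecidableEq V] [Fintype Ω] [DecidableEq Ω]
  {E : ((V → Ω) → ℝ) →ₗ[ℝ] ℝ} {r : ℕ}

/-- The kernel of conditional covariances is positive semidefinite. -/
theorem cov_psd (hE : IsPseudoExpectation r E) {κ : Type} [Fintype κ]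
    {P : κ → (V → Ω) → ℝ} {D : Finset V} (hP : IsPart P D) (hD : D.card + 1 ≤ r)
    {A : Type} [Fintype A] (x : A → V) (a : A → Ω) (c : A → ℝ) :
    0 ≤ ∑ p, ∑ q, c p * c q * cov E P (ind (x p) (a p)) (ind (x q) (a q)) := by
  have h1 : cov E P (∑ p, c p • ind (x p) (a p)) (∑ p, c p • ind (x p) (a p)) =
      ∑ p, ∑ q, c p * c q * cov E P (ind (x p) (a p)) (ind (x q) (a q)) := by
    rw [cov_sum_left]
    apply Finset.sum_congr rfl
    intro p _
    rw [cov_smul_left, cov_sum_right, Finset.mul_sum]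
    apply Finset.sum_congr rfl
    intro q _
    rw [cov_smul_right]
    ring
  rw [← h1]
  apply hP.cov_self_nonneg hE hD
  exact Submodule.sum_mem _ (fun p _ => Submodule.smul_mem _ _ (ind_mem _ _))

/-- If `E (ind w b) = 0` the conditional covariances with `ind w b` vanish. -/
theorem cov_eq_zero (hE : IsPseudoExpectation r E) {κ : Type} [Fintype κ]
    {P : κ → (V → Ω) → ℝ} {D : Finset V} (hP : IsPart P D) (hD : D.card + 2 ≤ r)
    (x : V) (a : Ω) (w : V) (b : Ω) (h0 : E (ind w b) = 0) :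
    cov E P (ind x a) (ind w b) = 0 := by
  have h1 : ∀ α, 0 ≤ E (P α * ind w b) := by
    intro α
    apply hP.E_two_nonneg hE hD α w w
    · intro σ σ' h _
      unfold ind
      rw [h]
    · exact ind_nonneg w b
  have h2 : ∀ α, E (P α * ind w b) = 0 := by
    intro α
    have h3 : ∑ α, E (P α * ind w b) = 0 := by rw [hP.sum_mul, h0]
    exact (Finset.sum_eq_zero_iff_of_nonneg (fun α _ => h1 α)).1 h3 α (Finset.mem_univ _)
  have h4 : ∀ α, E (P α * ind x a * ind w b) = 0 := by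
    intro α
    have h5 : 0 ≤ E (P α * (ind x a * ind w b)) := by
      apply hP.E_two_nonneg hE hD α x w
      · intro σ σ' h h'
        simp only [Pi.mul_apply]
        unfold ind
        rw [h, h']
      · intro σ
        exact mul_nonneg (ind_nonneg x a σ) (ind_nonneg w b σ)
    have h6 : 0 ≤ E (P α * (ind w b - ind x a * ind w b)) := by
      apply hP.E_two_nonneg hE hD α x w
      · intro σ σ' h h'
        simp only [Pi.sub_apply, Pi.mul_apply]
        unfold ind
        rw [h, h']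
      · intro σ
        simp only [Pi.sub_apply, Pi.mul_apply]
        unfold ind
        split_ifs <;> norm_num
    rw [mul_sub, map_sub, h2] at h6
    rw [← mul_assoc] at h5 h6
    linarith
  unfold cov
  apply Finset.sum_eq_zero
  intro α _
  rw [h4, h2]
  simp

/-- The covariance energy of an edge. -/
theorem edge_energy {ι : Type} (hE : IsPseudoExpectation r E) {κ : Type} [Fintype κ]
    {P : κ → (V → Ω) → ℝ} {D : Finset V} (hP : IsPart P D) (hD : D.card ≤ r)
    (s t : ι → V) (perm : ι → Equiv.Perm Ω) (e : ι) :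
    ∑ a, (cov E P (ind (s e) a) (ind (s e) a) +
      cov E P (ind (t e) (perm e a)) (ind (t e) (perm e a)) -
      2 * cov E P (ind (s e) a) (ind (t e) (perm e a))) ≤
      2 * (1 - E (sat (s e) (t e) (perm e))) := by
  have h1 : ∀ a, cov E P (ind (s e) a) (ind (s e) a) +
      cov E P (ind (t e) (perm e a)) (ind (t e) (perm e a)) -
      2 * cov E P (ind (s e) a) (ind (t e) (perm e a)) ≤
      E (ind (s e) a) + E (ind (t e) (perm e a)) -
        2 * E (ind (s e) a * ind (t e) (perm e a)) := by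
    intro a
    rw [← cov_sub_sub]
    refine (hP.cov_self_le hE hD _).trans (le_of_eq ?_)
    have h2 : ((ind (s e) a : (V → Ω) → ℝ) - ind (t e) (perm e a)) *
        (ind (s e) a - ind (t e) (perm e a)) =
        ind (s e) a + ind (t e) (perm e a) - (2 : ℝ) • (ind (s e) a * ind (t e) (perm e a)) := by
      have e1 := ind_mul_self (s e) a
      have e2 := ind_mul_self (t e) (perm e a)
      funext σ
      have e3 := congrFun e1 σ
      have e4 := congrFun e2 σ
      simp only [Pi.mul_apply, Pi.sub_apply, Pi.add_apply, Pi.smul_apply, smul_eq_mul] at e3 e4 ⊢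
      calc (ind (s e) a σ - ind (t e) (perm e a) σ) * (ind (s e) a σ - ind (t e) (perm e a) σ) =
          ind (s e) a σ * ind (s e) a σ + ind (t e) (perm e a) σ * ind (t e) (perm e a) σ -
          2 * (ind (s e) a σ * ind (t e) (perm e a) σ) := by ring
        _ = _ := by rw [e3, e4]
    rw [h2, map_sub, map_add, map_smul, smul_eq_mul]
  refine (Finset.sum_le_sum (fun a _ => h1 a)).trans (le_of_eq ?_)
  rw [Finset.sum_sub_distrib, Finset.sum_add_distrib, sum_E_ind hE, ← Finset.mul_sum]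
  have h3 : ∑ a, E (ind (t e) (perm e a)) = 1 := by
    rw [Equiv.sum_comp (perm e) (fun b => E (ind (t e) b))]
    exact sum_E_ind hE (t e)
  have h4 : ∑ a, E (ind (s e) a * ind (t e) (perm e a)) = E (sat (s e) (t e) (perm e)) := by
    rw [← map_sum]
    congr 1
    funext σ
    rw [Finset.sum_apply]
    simp only [Pi.mul_apply]
    unfold ind sat
    rw [Finset.sum_eq_single (σ (s e))]
    · simp only [if_true, one_mul]
      by_cases h : σ (t e) = perm e (σ (s e))
      · rw [if_pos h, if_pos h.symm]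
      · rw [if_neg h, if_neg (fun h' => h h'.symm)]
    · intro b _ hb
      rw [if_neg (fun h => hb h.symm), zero_mul]
    · intro h
      exact absurd (Finset.mem_univ _) h
  rw [h3, h4]
  ring

end

variable {V Ω ι : Type} [Fintype V] [DecidableEq V] [Fintype Ω] [DecidableEq Ω] [Fintype ι]
  {E : ((V → Ω) → ℝ) →ₗ[ℝ] ℝ} {r : ℕ}

theorem sum_subtype_eq {A : Type} [Fintype A] (q : A → Prop) [DecidablePred q] (F : A → ℝ)
    (hF : ∀ x, ¬ q x → F x = 0) : ∑ x, F x = ∑ x : {x // q x}, F x := by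
  rw [← Fintype.sum_subtype_add_sum_subtype q F]
  have : ∑ i : {x // ¬ q x}, F i = 0 := Finset.sum_eq_zero (fun i _ => hF i i.2)
  rw [this, add_zero]

/-- Nash inequality, restricted to the vertices of the part. -/
theorem nash_restrict (s t : ι → V) (W : ι → ℝ)
    (p : V → ℝ) (ρ : V → ℝ) (hρ : ∀ x, 0 ≤ ρ x)
    (hWp : ∀ e, W e ≠ 0 → 0 < p (s e) ∧ 0 < p (t e)) (hp : ∀ x, 0 ≤ p x)
    (lam m : ℝ) (hm : 0 < m) (hmdef : ∑ x, p x * ρ x = m)
    (hnash : ∀ g : V → ℝ, (∀ x, 0 ≤ g x) → ∑ x, p x * ρ x * g x = ∑ x, p x * ρ x →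
      lam * ((∑ x, p x * ρ x * g x ^ 2) *
        Real.log ((∑ x, p x * ρ x * g x ^ 2) / ∑ x, p x * ρ x)) ≤
      ∑ e, W e * (√(ρ (s e) * ρ (t e)) * (g (s e) - g (t e)) ^ 2))
    (g : {x : V // 0 < p x * ρ x} → ℝ) (hg : ∀ x, 0 ≤ g x)
    (hg1 : ∑ x : {x : V // 0 < p x * ρ x}, p x * ρ x / m * g x = 1) :
    lam * ((∑ x : {x : V // 0 < p x * ρ x}, p x * ρ x / m * g x ^ 2) *
      Real.log (∑ x : {x : V // 0 < p x * ρ x}, p x * ρ x / m * g x ^ 2)) ≤
    ∑ e : {e : ι // 0 < p (s e) * ρ (s e) ∧ 0 < p (t e) * ρ (t e)},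
      (W e * √(ρ (s e) * ρ (t e)) / m) * (g ⟨s e, e.2.1⟩ - g ⟨t e, e.2.2⟩) ^ 2 := by
  classical
  set G : V → ℝ := fun x => if h : 0 < p x * ρ x then g ⟨x, h⟩ else 0 with hG
  have hG0 : ∀ x, 0 ≤ G x := by
    intro x
    simp only [hG]
    split_ifs with h
    · exact hg _
    · exact le_rfl
  -- sums over V
  have hsub : ∀ F : V → ℝ, (∀ x, ¬ 0 < p x * ρ x → F x = 0) →
      ∑ x, F x = ∑ x : {x : V // 0 < p x * ρ x}, F x := by
    intro F hF
    exact sum_subtype_eq (fun x => 0 < p x * ρ x) F hF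
  have hmul : ∀ x, ¬ 0 < p x * ρ x → p x * ρ x = 0 := fun x h =>
    le_antisymm (not_lt.1 h) (mul_nonneg (hp x) (hρ x))
  have hGval : ∀ x : {x : V // 0 < p x * ρ x}, G x = g x := by
    intro x
    simp only [hG]
    rw [dif_pos x.2]
  have hS1 : ∑ x, p x * ρ x * G x = m := by
    rw [hsub (fun x => p x * ρ x * G x) (fun x h => by rw [hmul x h, zero_mul])]
    have h1 : ∑ x : {x : V // 0 < p x * ρ x}, p x * ρ x * G x =
        m * ∑ x : {x : V // 0 < p x * ρ x}, p x * ρ x / m * g x := by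
      rw [Finset.mul_sum]
      apply Finset.sum_congr rfl
      intro x _
      rw [hGval]
      field_simp
    rw [h1, hg1, mul_one]
  have hS2 : ∑ x, p x * ρ x * G x ^ 2 =
      m * ∑ x : {x : V // 0 < p x * ρ x}, p x * ρ x / m * g x ^ 2 := by
    rw [hsub (fun x => p x * ρ x * G x ^ 2) (fun x h => by rw [hmul x h, zero_mul])]
    rw [Finset.mul_sum]
    apply Finset.sum_congr rfl
    intro x _
    rw [hGval]
    field_simp
  have h := hnash G hG0 (by rw [hS1, hmdef])
  rw [hS2, hmdef] at h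
  set N := ∑ x : {x : V // 0 < p x * ρ x}, p x * ρ x / m * g x ^ 2 with hN
  have h2 : m * N / m = N := by field_simp
  rw [h2] at h
  -- the edges
  have hsub' : ∑ e, W e * (√(ρ (s e) * ρ (t e)) * (G (s e) - G (t e)) ^ 2) =
      m * ∑ e : {e : ι // 0 < p (s e) * ρ (s e) ∧ 0 < p (t e) * ρ (t e)},
      (W e * √(ρ (s e) * ρ (t e)) / m) * (g ⟨s e, e.2.1⟩ - g ⟨t e, e.2.2⟩) ^ 2 := by
    rw [sum_subtype_eq (fun e => 0 < p (s e) * ρ (s e) ∧ 0 < p (t e) * ρ (t e))
      (fun e => W e * (√(ρ (s e) * ρ (t e)) * (G (s e) - G (t e)) ^ 2)), Finset.mul_sum]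
    swap
    · intro e he
      by_cases hWe : W e = 0
      · rw [hWe, zero_mul]
      · have h3 := hWp e hWe
        have h4 : ρ (s e) * ρ (t e) = 0 := by
          by_contra hne
          have h5 : ρ (s e) ≠ 0 := left_ne_zero_of_mul hne
          have h6 : ρ (t e) ≠ 0 := right_ne_zero_of_mul hne
          exact he ⟨mul_pos h3.1 (lt_of_le_of_ne (hρ _) (Ne.symm h5)),
            mul_pos h3.2 (lt_of_le_of_ne (hρ _) (Ne.symm h6))⟩
        rw [h4]
        simp
    apply Finset.sum_congr rfl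
    intro e _
    have h8 := hGval ⟨s e, e.2.1⟩
    have h9 := hGval ⟨t e, e.2.2⟩
    simp only at h8 h9
    rw [h8, h9]
    field_simp
  rw [hsub'] at h
  have h3 : m * (lam * (N * Real.log N)) ≤ m * ∑ e : {e : ι // 0 < p (s e) * ρ (s e) ∧
      0 < p (t e) * ρ (t e)}, (W e * √(ρ (s e) * ρ (t e)) / m) *
        (g ⟨s e, e.2.1⟩ - g ⟨t e, e.2.2⟩) ^ 2 := by
    calc m * (lam * (N * Real.log N)) = lam * (m * N * Real.log N) := by ring
      _ ≤ _ := h
  exact le_of_mul_le_mul_left h3 hm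

/-- Conditioning on the labels of at most `R` vertices makes the average variance of one part
small. -/
theorem part_var (hE : IsPseudoExpectation r E) (s t : ι → V) (perm : ι → Equiv.Perm Ω)
    (W : ι → ℝ) (hW : ∀ e, 0 ≤ W e) (p : V → ℝ) (hp : ∀ x, 0 ≤ p x)
    (hWp : ∀ e, W e ≠ 0 → 0 < p (s e) ∧ 0 < p (t e)) (ρ : V → ℝ) (hρ : ∀ x, 0 ≤ ρ x)
    (lam m : ℝ) (hlam : 0 ≤ lam) (hm : 0 < m) (hmdef : ∑ x, p x * ρ x = m)
    (hnash : ∀ g : V → ℝ, (∀ x, 0 ≤ g x) → ∑ x, p x * ρ x * g x = ∑ x, p x * ρ x →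
      lam * ((∑ x, p x * ρ x * g x ^ 2) *
        Real.log ((∑ x, p x * ρ x * g x ^ 2) / ∑ x, p x * ρ x)) ≤
      ∑ e, W e * (√(ρ (s e) * ρ (t e)) * (g (s e) - g (t e)) ^ 2))
    (τ η T0 : ℝ) (hτ : 0 < τ) (hη : 0 < η) (hT0 : 0 ≤ T0) (R : ℕ) (hRr : R + 1 ≤ r)
    (hR : (Fintype.card V : ℝ) ^ (Real.exp (-(2 * lam * T0))) * Real.exp (2 * T0 * η) ≤
      τ ^ 2 * R) :
    ∃ (κ : Type) (_ : Fintype κ) (P : κ → (V → Ω) → ℝ) (D : Finset V),
      IsPart P D ∧ D.card ≤ R ∧ avVar E P (fun x => p x * ρ x / m) ≤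
        max τ (2 * (∑ e, W e * (√(ρ (s e) * ρ (t e)) *
          (1 - E (sat (s e) (t e) (perm e))))) / (m * η)) := by
  classical
  set d := ∑ e, W e * (√(ρ (s e) * ρ (t e)) * (1 - E (sat (s e) (t e) (perm e)))) with hd
  set M := max τ (2 * d / (m * η)) with hM
  set n : ℝ := (Fintype.card V : ℝ) with hn
  have hVne : Nonempty V := by
    by_contra hne
    rw [not_nonempty_iff] at hne
    rw [← hmdef] at hm
    simp at hm
  have hn1 : 1 ≤ n := by
    rw [hn]
    exact_mod_cast Fintype.card_pos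
  set nθ := n ^ (Real.exp (-(2 * lam * T0))) with hnθ
  have hnθ0 : 0 < nθ := Real.rpow_pos_of_pos (by linarith) _
  set δ := τ ^ 2 * Real.exp (-(2 * T0 * η)) / nθ with hδ
  have hμ0 : ∀ x, 0 ≤ p x * ρ x / m := fun x => div_nonneg (mul_nonneg (hp x) (hρ x)) hm.le
  apply loop hE (fun x => p x * ρ x / m) hμ0 (by rw [← Finset.sum_div, hmdef, div_self hm.ne'])
    M δ R _ hRr
  · intro κ _ P D hP hD hMP
    have hΦτ : τ < avVar E P (fun x => p x * ρ x / m) := lt_of_le_of_lt (le_max_left _ _) hMP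
    have hΦd : 2 * d / (m * η) < avVar E P (fun x => p x * ρ x / m) :=
      lt_of_le_of_lt (le_max_right _ _) hMP
    set Φ := avVar E P (fun x => p x * ρ x / m) with hΦ
    -- the restricted data
    let T := {x : V // 0 < p x * ρ x}
    let ι' := {e : ι // 0 < p (s e) * ρ (s e) ∧ 0 < p (t e) * ρ (t e)}
    let μ : T → ℝ := fun x => p x * ρ x / m
    let s' : ι' → T := fun e => ⟨s e, e.2.1⟩
    let t' : ι' → T := fun e => ⟨t e, e.2.2⟩
    let w' : ι' → ℝ := fun e => W e * √(ρ (s e) * ρ (t e)) / m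
    let C : T × Ω → T × Ω → ℝ := fun x y => cov E P (ind x.1.1 x.2) (ind y.1.1 y.2)
    let kap : T × Ω → ℝ := fun x => E (ind x.1.1 x.2)
    have hmul : ∀ x, ¬ 0 < p x * ρ x → p x * ρ x = 0 := fun x h =>
      le_antisymm (not_lt.1 h) (mul_nonneg (hp x) (hρ x))
    have hμpos : ∀ x, 0 < μ x := fun x => div_pos x.2 hm
    have hμ1 : ∑ x, μ x = 1 := by
      have h1 := sum_subtype_eq (fun x => 0 < p x * ρ x) (fun x => p x * ρ x / m)
        (fun x h => by rw [hmul x h, zero_div])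
      rw [← h1, ← Finset.sum_div, hmdef, div_self hm.ne']
    have hTne : Nonempty T := by
      by_contra hne
      rw [not_nonempty_iff] at hne
      have : ∑ x, μ x = 0 := by
        rw [Finset.univ_eq_empty, Finset.sum_empty]
      rw [hμ1] at this
      exact one_ne_zero this
    have hw' : ∀ e, 0 ≤ w' e := fun e =>
      div_nonneg (mul_nonneg (hW _) (Real.sqrt_nonneg _)) hm.le
    -- the mass
    have hkMass : kMass μ C = Φ := by
      rw [hΦ]
      unfold kMass avVar
      rw [sum_subtype_eq (fun x => 0 < p x * ρ x) (fun x => p x * ρ x / m *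
        ∑ a, cov E P (ind x a) (ind x a)) (fun x h => by rw [hmul x h, zero_div, zero_mul])]
    have hΦpos : 0 < kMass μ C := by rw [hkMass]; linarith
    -- the kernel bound
    have hkb := kern_bound μ s' t' (fun e : ι' => perm e) w' lam hμpos hμ1 hw' hlam
      (fun g hg hg1 => nash_restrict s t W p ρ hρ hWp hp lam m hm hmdef hnash g hg hg1)
      C (fun _ _ => cov_comm _ _)
      (fun c => cov_psd hE hP (by omega) (fun q : T × Ω => q.1.1) (fun q => q.2) c)
      hΦpos (κ := kap) (fun q => E_ind_nonneg hE (by omega) q.1.1 q.2)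
      (fun x => sum_E_ind hE x.1)
      (fun q q' h => cov_eq_zero hE hP hD q.1.1 q.2 q'.1.1 q'.2 h) hT0
    rw [hkMass] at hkb
    -- the energy
    have hEn : kEnergy s' t' (fun e : ι' => perm e) w' C ≤ 2 * d / m := by
      have h1 : kEnergy s' t' (fun e : ι' => perm e) w' C ≤
          ∑ e : ι', w' e * (2 * (1 - E (sat (s e) (t e) (perm e)))) := by
        unfold kEnergy
        apply Finset.sum_le_sum
        intro e _
        apply mul_le_mul_of_nonneg_left _ (hw' e)
        exact edge_energy hE hP (by omega) s t perm e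
      refine h1.trans (le_of_eq ?_)
      rw [hd, sum_subtype_eq (fun e => 0 < p (s e) * ρ (s e) ∧ 0 < p (t e) * ρ (t e))
        (fun e => W e * (√(ρ (s e) * ρ (t e)) * (1 - E (sat (s e) (t e) (perm e))))),
        Finset.mul_sum, Finset.sum_div]
      swap
      · intro e he
        by_cases hWe : W e = 0
        · rw [hWe, zero_mul]
        · have h3 := hWp e hWe
          have h4 : ρ (s e) * ρ (t e) = 0 := by
            by_contra hne
            have h5 : ρ (s e) ≠ 0 := left_ne_zero_of_mul hne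
            have h6 : ρ (t e) ≠ 0 := right_ne_zero_of_mul hne
            exact he ⟨mul_pos h3.1 (lt_of_le_of_ne (hρ _) (Ne.symm h5)),
              mul_pos h3.2 (lt_of_le_of_ne (hρ _) (Ne.symm h6))⟩
          rw [h4]
          simp
      apply Finset.sum_congr rfl
      intro e _
      simp only [w']
      ring
    have hratio : kEnergy s' t' (fun e : ι' => perm e) w' C / Φ ≤ η := by
      have hΦ0 : 0 < Φ := by linarith
      rw [div_le_iff₀ hΦ0]
      rw [div_lt_iff₀ (by positivity)] at hΦd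
      have : 2 * d / m ≤ η * Φ := by
        rw [div_le_iff₀ hm]
        linarith
      linarith
    -- the size of T
    have hcard : (Fintype.card T : ℝ) ^ Real.exp (-(2 * lam * T0)) ≤ nθ := by
      rw [hnθ]
      apply Real.rpow_le_rpow (by positivity) _ (Real.exp_nonneg _)
      rw [hn]
      exact_mod_cast Fintype.card_subtype_le _
    have hkc0 : 0 ≤ kCorr μ kap C := by
      unfold kCorr
      apply Finset.sum_nonneg
      intro x _
      apply Finset.sum_nonneg
      intro y _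
      apply mul_nonneg (mul_nonneg (hμpos x).le (hμpos y).le)
      apply Finset.sum_nonneg
      intro a _
      apply Finset.sum_nonneg
      intro b _
      exact div_nonneg (sq_nonneg _) (E_ind_nonneg hE (by omega) _ _)
    have hmain : δ ≤ kCorr μ kap C := by
      rw [hδ, div_le_iff₀ hnθ0]
      have h1 : τ ^ 2 * Real.exp (-(2 * T0 * η)) ≤
          Φ ^ 2 * Real.exp (-(2 * T0 *
            (kEnergy s' t' (fun e : ι' => perm e) w' C / Φ))) := by
        apply mul_le_mul
        · exact pow_le_pow_left₀ hτ.le hΦτ.le 2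
        · apply Real.exp_le_exp.2
          have := mul_le_mul_of_nonneg_left hratio (by positivity : 0 ≤ 2 * T0)
          linarith
        · exact Real.exp_nonneg _
        · positivity
      exact h1.trans (hkb.trans (mul_le_mul_of_nonneg_left hcard hkc0))
    refine hmain.trans (le_of_eq ?_)
    -- kCorr as a sum over V
    unfold kCorr
    have hx : ∀ F : V → V → ℝ, ∑ x : T, ∑ y : T, μ x * μ y * F x y =
        ∑ x, ∑ y, p x * ρ x / m * (p y * ρ y / m) * F x y := by
      intro F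
      rw [sum_subtype_eq (fun x => 0 < p x * ρ x)
        (fun x => ∑ y, p x * ρ x / m * (p y * ρ y / m) * F x y)
        (fun x h => by
          apply Finset.sum_eq_zero
          intro y _
          rw [hmul x h, zero_div, zero_mul, zero_mul])]
      apply Finset.sum_congr rfl
      intro x _
      rw [sum_subtype_eq (fun y => 0 < p y * ρ y)
        (fun y => p x * ρ x / m * (p y * ρ y / m) * F x y)
        (fun y h => by rw [hmul y h, zero_div, mul_zero, zero_mul])]
    rw [hx (fun x y => ∑ a, ∑ b, cov E P (ind x a) (ind y b) ^ 2 / E (ind y b))]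
    apply Finset.sum_congr rfl
    intro x _
    rw [Finset.sum_comm]
    apply Finset.sum_congr rfl
    intro y _
    rw [Finset.mul_sum]
    apply Finset.sum_congr rfl
    intro a _
    rw [Finset.mul_sum]
  · -- 1 - R δ ≤ M
    have h1 : 1 ≤ R * δ := by
      rw [hδ, mul_div_assoc', le_div_iff₀ hnθ0, one_mul]
      have h2 : Real.exp (-(2 * T0 * η)) = (Real.exp (2 * T0 * η))⁻¹ := Real.exp_neg _
      rw [h2]
      have h3 := Real.exp_pos (2 * T0 * η)
      calc nθ = nθ * Real.exp (2 * T0 * η) * (Real.exp (2 * T0 * η))⁻¹ := by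
            field_simp
        _ ≤ τ ^ 2 * R * (Real.exp (2 * T0 * η))⁻¹ :=
            mul_le_mul_of_nonneg_right hR (by positivity)
        _ = R * (τ ^ 2 * (Real.exp (2 * T0 * η))⁻¹) := by ring
    have h2 : 0 < M := lt_of_lt_of_le hτ (le_max_left _ _)
    linarith

/-- The oracle for one part. -/
theorem part_oracle [Nonempty Ω] (hE : IsPseudoExpectation r E) (s t : ι → V)
    (perm : ι → Equiv.Perm Ω)
    (W : ι → ℝ) (hW : ∀ e, 0 ≤ W e) (p : V → ℝ) (hp : ∀ x, 0 ≤ p x)
    (hWp : ∀ e, W e ≠ 0 → 0 < p (s e) ∧ 0 < p (t e)) (ρ : V → ℝ) (hρ : ∀ x, 0 ≤ ρ x)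
    (lam : ℝ) (hlam : 0 ≤ lam)
    (hnash : ∀ g : V → ℝ, (∀ x, 0 ≤ g x) → ∑ x, p x * ρ x * g x = ∑ x, p x * ρ x →
      lam * ((∑ x, p x * ρ x * g x ^ 2) *
        Real.log ((∑ x, p x * ρ x * g x ^ 2) / ∑ x, p x * ρ x)) ≤
      ∑ e, W e * (√(ρ (s e) * ρ (t e)) * (g (s e) - g (t e)) ^ 2))
    (τ η T0 : ℝ) (hτ : 0 < τ) (hη : 0 < η) (hT0 : 0 ≤ T0) (R : ℕ) (hRr : R + 2 ≤ r)
    (hR : (Fintype.card V : ℝ) ^ (Real.exp (-(2 * lam * T0))) * Real.exp (2 * T0 * η) ≤
      τ ^ 2 * R) (A₁ A₂ : ℝ) (hA₁ : 0 ≤ A₁) (hA₂ : 0 ≤ A₂) :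
    ∃ (ℓ : V → Ω) (P : V → ℝ) (er : ι → ℝ),
      (∀ x, 0 ≤ P x ∧ P x ≤ 1) ∧ (∀ e, 0 ≤ er e) ∧ (∀ e, |P (s e) - P (t e)| ≤ er e) ∧
      (∀ e, perm e (ℓ (s e)) ≠ ℓ (t e) → P (s e) + P (t e) ≤ 1 + er e) ∧
      A₁ * ∑ e, W e * (min (ρ (s e)) (ρ (t e)) * er e) +
        A₂ * ∑ x, p x * (ρ x * (1 - P x)) ≤
      A₁ * ∑ e, W e * (min (ρ (s e)) (ρ (t e)) * (1 - E (sat (s e) (t e) (perm e)))) +
        A₂ * ((∑ x, p x * ρ x) *
          max τ (2 * (∑ e, W e * (√(ρ (s e) * ρ (t e)) *
            (1 - E (sat (s e) (t e) (perm e))))) / ((∑ x, p x * ρ x) * η))) := by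
  classical
  rcases (Finset.sum_nonneg (fun x _ => mul_nonneg (hp x) (hρ x)) :
    0 ≤ ∑ x, p x * ρ x).lt_or_eq with hm | hm
  · set m := ∑ x, p x * ρ x with hmdef
    obtain ⟨κ, hκ, P, D, hP, hD, hΦ⟩ := part_var hE s t perm W hW p hp hWp ρ hρ lam m hlam hm
      hmdef.symm hnash τ η T0 hτ hη hT0 R (by omega) hR
    obtain ⟨ℓ, Q, er, h1, h2, h3, h4, h5⟩ := round_part hE hP (by omega) s t perm
      (fun e => A₁ * (W e * min (ρ (s e)) (ρ (t e))))
      (fun e => mul_nonneg hA₁ (mul_nonneg (hW e) (le_min (hρ _) (hρ _))))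
      (fun x => A₂ * (p x * ρ x)) (fun x => mul_nonneg hA₂ (mul_nonneg (hp x) (hρ x)))
    refine ⟨ℓ, Q, er, h1, h2, h3, h4, ?_⟩
    have e1 : A₁ * ∑ e, W e * (min (ρ (s e)) (ρ (t e)) * er e) +
        A₂ * ∑ x, p x * (ρ x * (1 - Q x)) =
        ∑ e, A₁ * (W e * min (ρ (s e)) (ρ (t e))) * er e +
        ∑ x, A₂ * (p x * ρ x) * (1 - Q x) := by
      rw [Finset.mul_sum, Finset.mul_sum]
      congr 1
      · exact Finset.sum_congr rfl (fun e _ => by ring)
      · exact Finset.sum_congr rfl (fun x _ => by ring)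
    rw [e1]
    refine h5.trans ?_
    have e2 : ∑ e, A₁ * (W e * min (ρ (s e)) (ρ (t e))) * (1 - E (sat (s e) (t e) (perm e))) =
        A₁ * ∑ e, W e * (min (ρ (s e)) (ρ (t e)) * (1 - E (sat (s e) (t e) (perm e)))) := by
      rw [Finset.mul_sum]
      exact Finset.sum_congr rfl (fun e _ => by ring)
    have e3 : ∑ x, A₂ * (p x * ρ x) * ∑ a, cov E P (ind x a) (ind x a) =
        A₂ * (m * avVar E P (fun x => p x * ρ x / m)) := by
      unfold avVar
      rw [Finset.mul_sum, Finset.mul_sum]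
      apply Finset.sum_congr rfl
      intro x _
      field_simp
    rw [e2, e3]
    have h6 := mul_le_mul_of_nonneg_left (mul_le_mul_of_nonneg_left hΦ hm.le) hA₂
    linarith
  · have hz : ∀ x, p x * ρ x = 0 := by
      intro x
      exact (Finset.sum_eq_zero_iff_of_nonneg
        (fun x _ => mul_nonneg (hp x) (hρ x))).1 hm.symm x (Finset.mem_univ x)
    have hz' : ∀ e, W e * min (ρ (s e)) (ρ (t e)) = 0 := by
      intro e
      by_cases hWe : W e = 0
      · rw [hWe, zero_mul]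
      · have h3 := hWp e hWe
        have h4 : ρ (s e) = 0 := by
          rcases mul_eq_zero.1 (hz (s e)) with h | h
          · exact absurd h h3.1.ne'
          · exact h
        rw [h4, min_eq_left (hρ _), mul_zero]
    refine ⟨fun _ => Classical.arbitrary Ω, fun _ => 1, fun _ => 1, ?_, ?_, ?_, ?_, ?_⟩
    · intro _; exact ⟨zero_le_one, le_rfl⟩
    · intro _; exact zero_le_one
    · intro _; simp
    · intro _ _; exact le_rfl
    · have e1 : ∀ er : ι → ℝ, ∑ e, W e * (min (ρ (s e)) (ρ (t e)) * er e) = 0 := by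
        intro er
        apply Finset.sum_eq_zero
        intro e _
        rw [← mul_assoc, hz', zero_mul]
      rw [e1, e1 (fun e => 1 - E (sat (s e) (t e) (perm e))), ← hm]
      simp

end Pool.Agent.Lib.P325u
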