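import Mathlib

/-!
The recursion on the unassigned vertices.
-/

open scoped BigOperators

namespace Pool.Agent.Lib.P325u

/-- If every set `U` of vertices of measure larger than `a ^ 2` has a partial labeling for which
the weight of the bad edges inside `U` plus `a / √p(U)` times the measure of the unassigned vertices
is at most `(3 / 4) a √p(U)`, then every `U` has a labeling violating edges inside `U` of total
weight at most `a √p(U)`. -/
theorem recursion {V Ω ι : Type} [Fintype V] [DecidableEq V] [DecidableEq Ω] [Nonempty Ω]
    [Fintype ι] (s t : ι → V) (perm : ι → Equiv.Perm Ω) (w : ι → ℝ) (hw : ∀ e, 0 ≤ w e)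
    (p : V → ℝ) (hp : ∀ x, 0 ≤ p x)
    (hwp : ∀ U : Finset V, ∑ e, (if s e ∈ U ∧ t e ∈ U then w e else 0) ≤ ∑ x ∈ U, p x)
    (a : ℝ) (ha : 0 < a)
    (hstage : ∀ U : Finset V, a ^ 2 < ∑ x ∈ U, p x → ∃ ℓ : V → Option Ω,
      ∑ e, (if s e ∈ U ∧ t e ∈ U then
        w e * (if Option.map (perm e) (ℓ (s e)) = ℓ (t e) then 0 else 1) else 0) +
      a / √(∑ x ∈ U, p x) * ∑ x ∈ U, (if ℓ x = none then p x else 0) ≤
        3 / 4 * (a * √(∑ x ∈ U, p x))) :
    ∀ U : Finset V, ∃ ℓ : V → Ω,
      ∑ e, (if s e ∈ U ∧ t e ∈ U then
        w e * (if perm e (ℓ (s e)) = ℓ (t e) then 0 else 1) else 0) ≤ a * √(∑ x ∈ U, p x) := by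
  have main : ∀ (m : ℕ) (U : Finset V), U.card = m → ∃ ℓ : V → Ω,
      ∑ e, (if s e ∈ U ∧ t e ∈ U then
        w e * (if perm e (ℓ (s e)) = ℓ (t e) then 0 else 1) else 0) ≤ a * √(∑ x ∈ U, p x) := by
    intro m
    induction m using Nat.strong_induction_on with
    | _ m ih =>
      intro U hU
      set v := ∑ x ∈ U, p x with hv
      have hv0 : 0 ≤ v := Finset.sum_nonneg (fun x _ => hp x)
      by_cases hbig : a ^ 2 < v
      · obtain ⟨ℓ, hℓ⟩ := hstage U hbig
        rw [← hv] at hℓ
        have hvpos : 0 < v := lt_of_le_of_lt (sq_nonneg a) hbig
        have hsv : 0 < √v := Real.sqrt_pos.2 hvpos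
        set U' := U.filter (fun x => ℓ x = none) with hU'
        have hu : ∑ x ∈ U, (if ℓ x = none then p x else 0) = ∑ x ∈ U', p x := by
          rw [hU', Finset.sum_filter]
        rw [hu] at hℓ
        set u := ∑ x ∈ U', p x with hudef
        have hu0 : 0 ≤ u := Finset.sum_nonneg (fun x _ => hp x)
        set bad := ∑ e, (if s e ∈ U ∧ t e ∈ U then
          w e * (if Option.map (perm e) (ℓ (s e)) = ℓ (t e) then 0 else 1) else 0) with hbad
        have hbad0 : 0 ≤ bad := by
          apply Finset.sum_nonneg
          intro e _
          split_ifs
          · simp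
          · simpa using hw e
          · exact le_rfl
        have hvv : √v * √v = v := Real.mul_self_sqrt hv0
        -- u < v
        have huv : u < v := by
          by_contra hge
          push Not at hge
          have h1 : a / √v * v ≤ a / √v * u := mul_le_mul_of_nonneg_left hge (by positivity)
          have h2 : a / √v * v = a * √v := by
            field_simp
            rw [sq, hvv]
          have h3 : 0 < a * √v := by positivity
          linarith
        have hss : U' ⊂ U := by
          refine lt_of_le_of_ne (Finset.filter_subset _ _) ?_
          intro heq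
          have : u = v := by rw [hudef, hv, heq]
          linarith
        have hcard := Finset.card_lt_card hss
        rw [hU] at hcard
        obtain ⟨ℓ', hℓ'⟩ := ih _ hcard U' rfl
        rw [← hudef] at hℓ'
        refine ⟨fun x => if x ∈ U' then ℓ' x else (ℓ x).getD (Classical.arbitrary Ω), ?_⟩
        have key : ∀ e, (if s e ∈ U ∧ t e ∈ U then w e *
            (if perm e (if s e ∈ U' then ℓ' (s e) else (ℓ (s e)).getD (Classical.arbitrary Ω)) =
              (if t e ∈ U' then ℓ' (t e) else (ℓ (t e)).getD (Classical.arbitrary Ω))
              then 0 else 1) else 0) ≤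
            (if s e ∈ U ∧ t e ∈ U then
              w e * (if Option.map (perm e) (ℓ (s e)) = ℓ (t e) then 0 else 1) else 0) +
            (if s e ∈ U' ∧ t e ∈ U' then
              w e * (if perm e (ℓ' (s e)) = ℓ' (t e) then 0 else 1) else 0) := by
          intro e
          have hwe := hw e
          by_cases hst : s e ∈ U ∧ t e ∈ U
          · rw [if_pos hst, if_pos hst]
            by_cases hg : Option.map (perm e) (ℓ (s e)) = ℓ (t e)
            · rw [if_pos hg, mul_zero, zero_add]
              cases hs : ℓ (s e) with
              | none =>
                rw [hs] at hg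
                have ht : ℓ (t e) = none := by rw [← hg]; rfl
                have h1 : s e ∈ U' := Finset.mem_filter.2 ⟨hst.1, hs⟩
                have h2 : t e ∈ U' := Finset.mem_filter.2 ⟨hst.2, ht⟩
                simp [h1, h2]
              | some i =>
                rw [hs] at hg
                have ht : ℓ (t e) = some (perm e i) := by rw [← hg]; rfl
                have h1 : s e ∉ U' := by
                  intro h
                  have := (Finset.mem_filter.1 h).2
                  rw [hs] at this
                  exact absurd this (by simp)
                have h2 : t e ∉ U' := by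
                  intro h
                  have := (Finset.mem_filter.1 h).2
                  rw [ht] at this
                  exact absurd this (by simp)
                simp [h1, h2, ht]
            · rw [if_neg hg, mul_one]
              have h1 : w e * (if perm e (if s e ∈ U' then ℓ' (s e) else
                  (ℓ (s e)).getD (Classical.arbitrary Ω)) =
                  (if t e ∈ U' then ℓ' (t e) else (ℓ (t e)).getD (Classical.arbitrary Ω))
                  then 0 else 1) ≤ w e := by
                split_ifs <;> linarith
              have h2 : 0 ≤ (if s e ∈ U' ∧ t e ∈ U' then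
                  w e * (if perm e (ℓ' (s e)) = ℓ' (t e) then 0 else 1) else 0) := by
                split_ifs <;> linarith
              linarith
          · rw [if_neg hst, if_neg hst, zero_add]
            split_ifs <;> linarith
        have hsum := Finset.sum_le_sum (s := Finset.univ) (fun e _ => key e)
        rw [Finset.sum_add_distrib, ← hbad] at hsum
        refine hsum.trans ?_
        -- √u ≤ u / √v + √v / 4
        have hsu : √u ≤ u / √v + √v / 4 := by
          have h1 : √u * √u = u := Real.mul_self_sqrt hu0
          rw [div_add_div _ _ hsv.ne' (by norm_num : (4:ℝ) ≠ 0), le_div_iff₀ (by positivity)]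
          nlinarith [sq_nonneg (2 * √u - √v)]
        have h4 : a * √u ≤ a / √v * u + a * √v / 4 := by
          calc a * √u ≤ a * (u / √v + √v / 4) := mul_le_mul_of_nonneg_left hsu ha.le
            _ = _ := by ring
        have h5 : 0 < a * √v := by positivity
        linarith
      · push Not at hbig
        refine ⟨fun _ => Classical.arbitrary Ω, ?_⟩
        have h1 : ∑ e, (if s e ∈ U ∧ t e ∈ U then
            w e * (if perm e (Classical.arbitrary Ω) = Classical.arbitrary Ω then 0 else 1)
            else 0) ≤ v := by
          refine le_trans (Finset.sum_le_sum (fun e _ => ?_)) (hwp U)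
          have hwe := hw e
          split_ifs <;> linarith
        have h2 : v ≤ a * √v := by
          have h3 : √v ≤ a := by
            rw [← Real.sqrt_sq ha.le]
            exact Real.sqrt_le_sqrt hbig
          calc v = √v * √v := (Real.mul_self_sqrt hv0).symm
            _ ≤ a * √v := mul_le_mul_of_nonneg_right h3 (Real.sqrt_nonneg _)
        exact h1.trans h2
  exact fun U => main _ U rfl

end Pool.Agent.Lib.P325u
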