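import Mathlib
import Pool.Agent.Lib.P325u.Samp

/-!
One stage: from a soft decomposition and good labelings of the parts to a partial labeling.
-/

open scoped BigOperators

namespace Pool.Agent.Lib.P325u

namespace StageAux

/-- The soft threshold `max (3 P - 2) 0`. -/
noncomputable def psi (P : ℝ) : ℝ := max (3 * P - 2) 0

theorem psi_nonneg (P : ℝ) : 0 ≤ psi P := le_max_right _ _

theorem psi_le_one {P : ℝ} (h : P ≤ 1) : psi P ≤ 1 := by
  unfold psi
  exact max_le (by linarith) zero_le_one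

theorem psi_lip (P Q : ℝ) : |psi P - psi Q| ≤ 3 * |P - Q| := by
  unfold psi
  have h := abs_max_sub_max_le_abs (3 * P - 2) (3 * Q - 2) 0
  have h2 : |3 * P - 2 - (3 * Q - 2)| = 3 * |P - Q| := by
    rw [show 3 * P - 2 - (3 * Q - 2) = 3 * (P - Q) by ring, abs_mul]
    norm_num
  linarith

theorem one_sub_psi (P : ℝ) : 1 - psi P ≤ 3 * (1 - P) := by
  unfold psi
  have := le_max_left (3 * P - 2) 0
  linarith

/-- the difference of the products -/
theorem abs_prod_sub {r r' f f' : ℝ} (hr : 0 ≤ r) (hr' : 0 ≤ r') (hf : 0 ≤ f) (hf1 : f ≤ 1)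
    (hf' : 0 ≤ f') (hf1' : f' ≤ 1) :
    |r * f - r' * f'| ≤ |r - r'| + min r r' * |f - f'| := by
  rcases le_total r r' with h | h
  · rw [min_eq_left h]
    have h1 : r * f - r' * f' = r * (f - f') + (r - r') * f' := by ring
    rw [h1]
    refine (abs_add_le _ _).trans ?_
    rw [abs_mul, abs_mul, abs_of_nonneg hr, abs_of_nonneg hf']
    have h2 : |r - r'| * f' ≤ |r - r'| := mul_le_of_le_one_right (abs_nonneg _) hf1'
    linarith
  · rw [min_eq_right h]
    have h1 : r * f - r' * f' = r' * (f - f') + (r - r') * f := by ring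
    rw [h1]
    refine (abs_add_le _ _).trans ?_
    rw [abs_mul, abs_mul, abs_of_nonneg hr', abs_of_nonneg hf]
    have h2 : |r - r'| * f ≤ |r - r'| := mul_le_of_le_one_right (abs_nonneg _) hf1
    linarith

theorem min_prod_le {r r' f f' B e : ℝ} (hr : 0 ≤ r) (hr' : 0 ≤ r') (hf : 0 ≤ f) (hf1 : f ≤ 1)
    (hf' : 0 ≤ f') (hf1' : f' ≤ 1) (he : 0 ≤ e) (hB1 : B ≤ 1)
    (h : 0 < f → 0 < f' → B ≤ 3 * e) (hB0 : 0 ≤ B) :
    min (r * f) (r' * f') * B ≤ 3 * (min r r' * e) := by
  have hm : min (r * f) (r' * f') ≤ min r r' :=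
    min_le_min (mul_le_of_le_one_right hr hf1) (mul_le_of_le_one_right hr' hf1')
  have hmr : 0 ≤ min r r' := le_min hr hr'
  rcases hf.lt_or_eq with h1 | h1
  · rcases hf'.lt_or_eq with h2 | h2
    · have h3 := h h1 h2
      calc min (r * f) (r' * f') * B ≤ min r r' * B := mul_le_mul_of_nonneg_right hm hB0
        _ ≤ min r r' * (3 * e) := mul_le_mul_of_nonneg_left h3 hmr
        _ = 3 * (min r r' * e) := by ring
    · rw [← h2, mul_zero, min_eq_right (mul_nonneg hr hf), zero_mul]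
      positivity
  · rw [← h1, mul_zero, min_eq_left (mul_nonneg hr' hf'), zero_mul]
    positivity

/-- Cauchy-Schwarz for the soft partition. -/
theorem sum_abs_le {V ι I : Type} [Fintype ι] [Fintype I] (s t : ι → V) (W : ι → ℝ)
    (hW : ∀ e, 0 ≤ W e) (ρ : I → V → ℝ) (hρ : ∀ i x, 0 ≤ ρ i x) (hρ1 : ∀ x, ∑ i, ρ i x = 1)
    (v : ℝ) (hv : 0 ≤ v) (hWv : ∑ e, W e ≤ v) (K : ℝ) (hK : 0 ≤ K)
    (hEn : ∑ i, ∑ e, W e * (√(ρ i (s e)) - √(ρ i (t e))) ^ 2 ≤ K ^ 2 * v) :
    ∑ e, W e * ∑ i, |ρ i (s e) - ρ i (t e)| ≤ 2 * K * v := by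
  have hcs := Finset.sum_mul_sq_le_sq_mul_sq (Finset.univ : Finset (ι × I))
    (fun q => √(W q.1) * |√(ρ q.2 (s q.1)) - √(ρ q.2 (t q.1))|)
    (fun q => √(W q.1) * (√(ρ q.2 (s q.1)) + √(ρ q.2 (t q.1))))
  have e1 : ∑ q : ι × I, (√(W q.1) * |√(ρ q.2 (s q.1)) - √(ρ q.2 (t q.1))|) *
      (√(W q.1) * (√(ρ q.2 (s q.1)) + √(ρ q.2 (t q.1)))) =
      ∑ e, W e * ∑ i, |ρ i (s e) - ρ i (t e)| := by
    rw [Fintype.sum_prod_type]
    apply Finset.sum_congr rfl
    intro e _
    rw [Finset.mul_sum]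
    apply Finset.sum_congr rfl
    intro i _
    have h1 := Real.mul_self_sqrt (hW e)
    have h2 := Real.mul_self_sqrt (hρ i (s e))
    have h3 := Real.mul_self_sqrt (hρ i (t e))
    have h4 : |ρ i (s e) - ρ i (t e)| =
        |√(ρ i (s e)) - √(ρ i (t e))| * (√(ρ i (s e)) + √(ρ i (t e))) := by
      rw [← abs_of_nonneg (add_nonneg (Real.sqrt_nonneg (ρ i (s e)))
        (Real.sqrt_nonneg (ρ i (t e)))), ← abs_mul]
      congr 1
      rw [← h2, ← h3]
      simp only [Real.sqrt_mul_self (Real.sqrt_nonneg _)]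
      ring
    rw [h4, ← h1]
    simp only [Real.sqrt_mul_self (Real.sqrt_nonneg _)]
    ring
  have e2 : ∑ q : ι × I, (√(W q.1) * |√(ρ q.2 (s q.1)) - √(ρ q.2 (t q.1))|) ^ 2 =
      ∑ i, ∑ e, W e * (√(ρ i (s e)) - √(ρ i (t e))) ^ 2 := by
    rw [Fintype.sum_prod_type, Finset.sum_comm]
    apply Finset.sum_congr rfl
    intro i _
    apply Finset.sum_congr rfl
    intro e _
    rw [mul_pow, sq_abs, Real.sq_sqrt (hW e)]
  have e3 : ∑ q : ι × I, (√(W q.1) * (√(ρ q.2 (s q.1)) + √(ρ q.2 (t q.1)))) ^ 2 ≤ 4 * v := by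
    rw [Fintype.sum_prod_type]
    have h1 : ∀ e, ∑ i, (√(W e) * (√(ρ i (s e)) + √(ρ i (t e)))) ^ 2 ≤ 4 * W e := by
      intro e
      have h2 : ∀ i, (√(W e) * (√(ρ i (s e)) + √(ρ i (t e)))) ^ 2 ≤
          W e * (2 * (ρ i (s e) + ρ i (t e))) := by
        intro i
        rw [mul_pow, Real.sq_sqrt (hW e)]
        apply mul_le_mul_of_nonneg_left _ (hW e)
        have h2 := Real.sq_sqrt (hρ i (s e))
        have h3 := Real.sq_sqrt (hρ i (t e))
        nlinarith [sq_nonneg (√(ρ i (s e)) - √(ρ i (t e)))]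
      refine (Finset.sum_le_sum (fun i _ => h2 i)).trans (le_of_eq ?_)
      rw [← Finset.mul_sum, ← Finset.mul_sum, Finset.sum_add_distrib, hρ1, hρ1]
      ring
    refine (Finset.sum_le_sum (fun e _ => h1 e)).trans ?_
    rw [← Finset.mul_sum]
    linarith
  rw [e1, e2] at hcs
  have hS0 : 0 ≤ ∑ e, W e * ∑ i, |ρ i (s e) - ρ i (t e)| :=
    Finset.sum_nonneg (fun e _ => mul_nonneg (hW e)
      (Finset.sum_nonneg (fun i _ => abs_nonneg _)))
  have h5 : (∑ e, W e * ∑ i, |ρ i (s e) - ρ i (t e)|) ^ 2 ≤ (2 * K * v) ^ 2 := by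
    refine hcs.trans ?_
    have h6 : 0 ≤ ∑ q : ι × I, (√(W q.1) * (√(ρ q.2 (s q.1)) + √(ρ q.2 (t q.1)))) ^ 2 :=
      Finset.sum_nonneg (fun q _ => sq_nonneg _)
    calc (∑ i, ∑ e, W e * (√(ρ i (s e)) - √(ρ i (t e))) ^ 2) *
          ∑ q : ι × I, (√(W q.1) * (√(ρ q.2 (s q.1)) + √(ρ q.2 (t q.1)))) ^ 2
        ≤ (K ^ 2 * v) * (4 * v) := mul_le_mul hEn e3 h6 (by positivity)
      _ = (2 * K * v) ^ 2 := by ring
  exact (abs_le_of_sq_le_sq' h5 (by positivity)).2

end StageAux

open StageAux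

/-- One stage of the rounding: a soft partition `ρ` of small energy with good labelings of its parts
yields a partial labeling (`none` = unassigned). -/
theorem stage {V Ω ι I : Type} [Fintype V] [DecidableEq V] [DecidableEq Ω]
    [Fintype ι] [Fintype I] [DecidableEq I]
    (s t : ι → V) (perm : ι → Equiv.Perm Ω) (W : ι → ℝ) (hW : ∀ e, 0 ≤ W e)
    (p : V → ℝ) (hp : ∀ x, 0 ≤ p x) (ρ : I → V → ℝ) (hρ : ∀ i x, 0 ≤ ρ i x)
    (hρ1 : ∀ x, ∑ i, ρ i x = 1)
    (err0 : ι → ℝ) (herr0 : ∀ e, 0 ≤ err0 e) (ε : ℝ) (herr : ∑ e, W e * err0 e ≤ ε)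
    (v : ℝ) (hpv : ∑ x, p x = v) (hWv : ∑ e, W e ≤ v)
    (K : ℝ) (hK : 0 ≤ K)
    (hEn : ∑ i, ∑ e, W e * (√(ρ i (s e)) - √(ρ i (t e))) ^ 2 ≤ K ^ 2 * v)
    (τ η : ℝ) (hτ : 0 ≤ τ) (hη : 0 < η)
    (horacle : ∀ i, ∀ A₁ A₂ : ℝ, 0 ≤ A₁ → 0 ≤ A₂ → ∃ (ℓ : V → Ω) (P : V → ℝ) (er : ι → ℝ),
      (∀ x, 0 ≤ P x ∧ P x ≤ 1) ∧ (∀ e, 0 ≤ er e) ∧ (∀ e, |P (s e) - P (t e)| ≤ er e) ∧
      (∀ e, perm e (ℓ (s e)) ≠ ℓ (t e) → P (s e) + P (t e) ≤ 1 + er e) ∧
      A₁ * ∑ e, W e * (min (ρ i (s e)) (ρ i (t e)) * er e) +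
        A₂ * ∑ x, p x * (ρ i x * (1 - P x)) ≤
      A₁ * ∑ e, W e * (min (ρ i (s e)) (ρ i (t e)) * err0 e) +
        A₂ * ((∑ x, p x * ρ i x) *
          max τ (2 * (∑ e, W e * (√(ρ i (s e) * ρ i (t e)) * err0 e)) /
            ((∑ x, p x * ρ i x) * η))))
    (c : ℝ) (hc : 0 ≤ c) :
    ∃ ℓ : V → Option Ω,
      ∑ e, W e * (if Option.map (perm e) (ℓ (s e)) = ℓ (t e) then 0 else 1) +
        c * ∑ x, (if ℓ x = none then p x else 0) ≤
      4 * K * v + 9 * ε + 3 * c * (τ * v + 2 * ε / η) := by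
  classical
  choose ℓ P er hP her hlip hviol hbound using
    fun i => horacle i 9 (3 * c) (by norm_num) (by positivity)
  have hv : 0 ≤ v := by rw [← hpv]; exact Finset.sum_nonneg (fun x _ => hp x)
  -- the refined soft partition
  set q : Option I → V → ℝ := fun o x => o.elim (1 - ∑ i, ρ i x * psi (P i x))
    (fun i => ρ i x * psi (P i x)) with hq
  have hqs : ∀ i x, q (some i) x = ρ i x * psi (P i x) := fun i x => rfl
  have hqn : ∀ x, q none x = 1 - ∑ i, ρ i x * psi (P i x) := fun x => rfl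
  have hqn' : ∀ x, q none x = ∑ i, ρ i x * (1 - psi (P i x)) := by
    intro x
    rw [hqn]
    simp only [mul_sub, mul_one]
    rw [Finset.sum_sub_distrib, hρ1]
  have hq0 : ∀ o x, 0 ≤ q o x := by
    intro o x
    cases o with
    | none =>
      rw [hqn']
      exact Finset.sum_nonneg (fun i _ => mul_nonneg (hρ i x)
        (sub_nonneg.2 (psi_le_one (hP i x).2)))
    | some i => exact mul_nonneg (hρ i x) (psi_nonneg _)
  have hq1 : ∀ x, ∑ o, q o x = 1 := by
    intro x
    rw [Fintype.sum_option, hqn]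
    simp only [hqs]
    ring
  set B : Option I → ι ⊕ V → ℝ := fun o => Sum.elim
    (fun e => o.elim 0 (fun i => if perm e (ℓ i (s e)) = ℓ i (t e) then 0 else 1))
    (fun _ => if o = none then 1 else 0) with hB
  have hB01 : ∀ o e, 0 ≤ B o e ∧ B o e ≤ 1 := by
    intro o e
    cases e with
    | inl e =>
      cases o with
      | none => simp [hB]
      | some i =>
        simp only [hB, Sum.elim_inl, Option.elim]
        split_ifs <;> simp
    | inr x =>
      simp only [hB, Sum.elim_inr]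
      split_ifs <;> simp
  obtain ⟨z, hz⟩ := sampling q hq0 hq1 (Sum.elim s id) (Sum.elim t id)
    (Sum.elim W (fun x => c * p x))
    (by
      intro e
      cases e with
      | inl e => exact hW e
      | inr x => exact mul_nonneg hc (hp x)) B hB01
  refine ⟨fun x => (z x).map (fun i => ℓ i x), ?_⟩
  rw [Fintype.sum_sum_type, Fintype.sum_sum_type] at hz
  simp only [Sum.elim_inl, Sum.elim_inr, id, if_true, sub_self, abs_zero, min_self,
    zero_add] at hz
  -- the left hand side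
  have hL1 : ∀ e, W e * (if Option.map (perm e) ((z (s e)).map (fun i => ℓ i (s e))) =
      (z (t e)).map (fun i => ℓ i (t e)) then 0 else 1) ≤
      W e * (if z (s e) = z (t e) then B (z (s e)) (Sum.inl e) else 1) := by
    intro e
    apply mul_le_mul_of_nonneg_left _ (hW e)
    by_cases hzz : z (s e) = z (t e)
    · rw [if_pos hzz]
      cases hs : z (s e) with
      | none =>
        rw [hs] at hzz
        rw [← hzz]
        simp [hB]
      | some i =>
        rw [hs] at hzz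
        rw [← hzz]
        simp [hB]
    · rw [if_neg hzz]
      split_ifs <;> norm_num
  have hL2 : ∀ x, c * (if (z x).map (fun i => ℓ i x) = none then p x else 0) =
      c * p x * B (z x) (Sum.inr x) := by
    intro x
    cases hs : z x with
    | none => simp [hB]
    | some i => simp [hB]
  have hLHS : ∑ e, W e * (if Option.map (perm e) ((z (s e)).map (fun i => ℓ i (s e))) =
        (z (t e)).map (fun i => ℓ i (t e)) then 0 else 1) +
        c * ∑ x, (if (z x).map (fun i => ℓ i x) = none then p x else 0) ≤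
      ∑ e, W e * (if z (s e) = z (t e) then B (z (s e)) (Sum.inl e) else 1) +
        ∑ x, c * p x * B (z x) (Sum.inr x) := by
    rw [Finset.mul_sum]
    apply add_le_add (Finset.sum_le_sum (fun e _ => hL1 e))
    exact le_of_eq (Finset.sum_congr rfl (fun x _ => hL2 x))
  refine hLHS.trans (hz.trans ?_)
  -- the right hand side: edges
  have hR1 : ∀ e, ∑ o, (|q o (s e) - q o (t e)| + min (q o (s e)) (q o (t e)) * B o (Sum.inl e)) ≤
      2 * ∑ i, |ρ i (s e) - ρ i (t e)| +
        9 * ∑ i, min (ρ i (s e)) (ρ i (t e)) * er i e := by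
    intro e
    rw [Fintype.sum_option]
    have h1 : |q none (s e) - q none (t e)| ≤ ∑ i, |q (some i) (s e) - q (some i) (t e)| := by
      rw [hqn, hqn]
      have : (1 - ∑ i, ρ i (s e) * psi (P i (s e))) - (1 - ∑ i, ρ i (t e) * psi (P i (t e))) =
          -∑ i, (q (some i) (s e) - q (some i) (t e)) := by
        simp only [hqs]
        rw [Finset.sum_sub_distrib]
        ring
      rw [this, abs_neg]
      exact Finset.abs_sum_le_sum_abs _ _
    have h2 : B none (Sum.inl e) = 0 := by simp [hB]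
    have h3 : ∀ i, |q (some i) (s e) - q (some i) (t e)| ≤
        |ρ i (s e) - ρ i (t e)| + 3 * (min (ρ i (s e)) (ρ i (t e)) * er i e) := by
      intro i
      rw [hqs, hqs]
      refine (abs_prod_sub (hρ i _) (hρ i _) (psi_nonneg _) (psi_le_one (hP i _).2)
        (psi_nonneg _) (psi_le_one (hP i _).2)).trans ?_
      have h4 : min (ρ i (s e)) (ρ i (t e)) * |psi (P i (s e)) - psi (P i (t e))| ≤
          min (ρ i (s e)) (ρ i (t e)) * (3 * er i e) := by
        apply mul_le_mul_of_nonneg_left _ (le_min (hρ i _) (hρ i _))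
        exact (psi_lip _ _).trans (mul_le_mul_of_nonneg_left (hlip i e) (by norm_num))
      linarith
    have h4 : ∀ i, min (q (some i) (s e)) (q (some i) (t e)) * B (some i) (Sum.inl e) ≤
        3 * (min (ρ i (s e)) (ρ i (t e)) * er i e) := by
      intro i
      rw [hqs, hqs]
      apply min_prod_le (hρ i _) (hρ i _) (psi_nonneg _) (psi_le_one (hP i _).2)
        (psi_nonneg _) (psi_le_one (hP i _).2) (her i e) (hB01 _ _).2 _ (hB01 _ _).1
      intro hf hf'
      have hf2 : 2 / 3 < P i (s e) := by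
        unfold psi at hf
        by_contra hcon
        push Not at hcon
        rw [max_eq_right (by linarith)] at hf
        exact lt_irrefl _ hf
      have hf2' : 2 / 3 < P i (t e) := by
        unfold psi at hf'
        by_contra hcon
        push Not at hcon
        rw [max_eq_right (by linarith)] at hf'
        exact lt_irrefl _ hf'
      simp only [hB, Sum.elim_inl, Option.elim]
      split_ifs with hsat
      · have := her i e
        linarith
      · have := hviol i e hsat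
        linarith
    rw [h2, mul_zero, add_zero, Finset.sum_add_distrib]
    have h5 := Finset.sum_le_sum (s := Finset.univ) (fun i _ => h3 i)
    have h6 := Finset.sum_le_sum (s := Finset.univ) (fun i _ => h4 i)
    rw [Finset.sum_add_distrib, ← Finset.mul_sum] at h5
    rw [← Finset.mul_sum] at h6
    linarith
  have hR1' : ∑ e, W e * ∑ o, (|q o (s e) - q o (t e)| +
      min (q o (s e)) (q o (t e)) * B o (Sum.inl e)) ≤
      2 * ∑ e, W e * ∑ i, |ρ i (s e) - ρ i (t e)| +
        ∑ i, 9 * ∑ e, W e * (min (ρ i (s e)) (ρ i (t e)) * er i e) := by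
    refine (Finset.sum_le_sum (fun e _ => mul_le_mul_of_nonneg_left (hR1 e) (hW e))).trans
      (le_of_eq ?_)
    rw [← Finset.mul_sum]
    rw [Finset.sum_comm (f := fun i e => W e * (min (ρ i (s e)) (ρ i (t e)) * er i e))]
    rw [Finset.mul_sum, Finset.mul_sum, ← Finset.sum_add_distrib]
    apply Finset.sum_congr rfl
    intro e _
    rw [← Finset.mul_sum]
    ring
  -- the right hand side: vertices
  have hR2 : ∑ x, c * p x * ∑ o, q o x * B o (Sum.inr x) ≤
      ∑ i, 3 * c * ∑ x, p x * (ρ i x * (1 - P i x)) := by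
    rw [← Finset.mul_sum, Finset.sum_comm, Finset.mul_sum]
    apply Finset.sum_le_sum
    intro x _
    have h1 : ∑ o, q o x * B o (Sum.inr x) = q none x := by
      rw [Fintype.sum_option]
      simp [hB]
    rw [h1, hqn' x, ← Finset.mul_sum, mul_assoc, mul_assoc]
    have h2 : ∑ i, ρ i x * (1 - psi (P i x)) ≤ 3 * ∑ i, ρ i x * (1 - P i x) := by
      rw [Finset.mul_sum]
      apply Finset.sum_le_sum
      intro i _
      have := mul_le_mul_of_nonneg_left (one_sub_psi (P i x)) (hρ i x)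
      linarith
    have h3 := mul_le_mul_of_nonneg_left (mul_le_mul_of_nonneg_left h2 (hp x)) hc
    linarith
  refine (add_le_add hR1' hR2).trans ?_
  rw [add_assoc, ← Finset.sum_add_distrib]
  have hS := sum_abs_le s t W hW ρ hρ hρ1 v hv hWv K hK hEn
  have hparts : ∀ i, 9 * ∑ e, W e * (min (ρ i (s e)) (ρ i (t e)) * er i e) +
      3 * c * ∑ x, p x * (ρ i x * (1 - P i x)) ≤
      9 * ∑ e, W e * (min (ρ i (s e)) (ρ i (t e)) * err0 e) +
      3 * c * (τ * ∑ x, p x * ρ i x +
        2 / η * ∑ e, W e * (√(ρ i (s e) * ρ i (t e)) * err0 e)) := by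
    intro i
    refine (hbound i).trans ?_
    have hm0 : 0 ≤ ∑ x, p x * ρ i x := Finset.sum_nonneg (fun x _ => mul_nonneg (hp x) (hρ i x))
    have hd0 : 0 ≤ ∑ e, W e * (√(ρ i (s e) * ρ i (t e)) * err0 e) :=
      Finset.sum_nonneg (fun e _ => mul_nonneg (hW e) (mul_nonneg (Real.sqrt_nonneg _) (herr0 e)))
    set m := ∑ x, p x * ρ i x with hm
    set d := ∑ e, W e * (√(ρ i (s e) * ρ i (t e)) * err0 e) with hd
    have h1 : m * max τ (2 * d / (m * η)) ≤ τ * m + 2 / η * d := by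
      rcases hm0.lt_or_eq with hmpos | hmz
      · rcases max_cases τ (2 * d / (m * η)) with ⟨h, _⟩ | ⟨h, _⟩
        · rw [h]
          have : 0 ≤ 2 / η * d := by positivity
          linarith
        · rw [h]
          have h2 : m * (2 * d / (m * η)) = 2 / η * d := by field_simp
          have h3 : 0 ≤ τ * m := by positivity
          linarith
      · rw [← hmz, zero_mul, mul_zero, zero_add]
        positivity
    have h2 := mul_le_mul_of_nonneg_left h1 (by positivity : 0 ≤ 3 * c)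
    linarith
  have hsumparts := Finset.sum_le_sum (s := Finset.univ) (fun i _ => hparts i)
  have e1 : ∑ i, ∑ e, W e * (min (ρ i (s e)) (ρ i (t e)) * err0 e) ≤ ε := by
    rw [Finset.sum_comm]
    refine le_trans (Finset.sum_le_sum (fun e _ => ?_)) herr
    rw [← Finset.mul_sum, ← Finset.sum_mul]
    apply mul_le_mul_of_nonneg_left _ (hW e)
    apply mul_le_of_le_one_left (herr0 e)
    rw [← hρ1 (s e)]
    exact Finset.sum_le_sum (fun i _ => min_le_left _ _)
  have e2 : ∑ i, ∑ e, W e * (√(ρ i (s e) * ρ i (t e)) * err0 e) ≤ ε := by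
    rw [Finset.sum_comm]
    refine le_trans (Finset.sum_le_sum (fun e _ => ?_)) herr
    rw [← Finset.mul_sum, ← Finset.sum_mul]
    apply mul_le_mul_of_nonneg_left _ (hW e)
    apply mul_le_of_le_one_left (herr0 e)
    have h1 : ∀ i, √(ρ i (s e) * ρ i (t e)) ≤ (ρ i (s e) + ρ i (t e)) / 2 := by
      intro i
      rw [Real.sqrt_le_left (by have := hρ i (s e); have := hρ i (t e); positivity)]
      nlinarith [sq_nonneg (ρ i (s e) - ρ i (t e))]
    refine (Finset.sum_le_sum (fun i _ => h1 i)).trans (le_of_eq ?_)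
    rw [← Finset.sum_div, Finset.sum_add_distrib, hρ1, hρ1]
    norm_num
  have e3 : ∑ i, ∑ x, p x * ρ i x = v := by
    rw [Finset.sum_comm, ← hpv]
    apply Finset.sum_congr rfl
    intro x _
    rw [← Finset.mul_sum, hρ1, mul_one]
  have e4 : ∑ i, (9 * ∑ e, W e * (min (ρ i (s e)) (ρ i (t e)) * err0 e) +
      3 * c * (τ * ∑ x, p x * ρ i x +
        2 / η * ∑ e, W e * (√(ρ i (s e) * ρ i (t e)) * err0 e))) =
      9 * ∑ i, ∑ e, W e * (min (ρ i (s e)) (ρ i (t e)) * err0 e) +
      3 * c * (τ * ∑ i, ∑ x, p x * ρ i x +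
        2 / η * ∑ i, ∑ e, W e * (√(ρ i (s e) * ρ i (t e)) * err0 e)) := by
    rw [Finset.sum_add_distrib, ← Finset.mul_sum, ← Finset.mul_sum, Finset.sum_add_distrib,
      ← Finset.mul_sum, ← Finset.mul_sum]
  rw [e4, e3] at hsumparts
  have h7 : 2 / η * ∑ i, ∑ e, W e * (√(ρ i (s e) * ρ i (t e)) * err0 e) ≤ 2 * ε / η := by
    have := mul_le_mul_of_nonneg_left e2 (by positivity : 0 ≤ 2 / η)
    calc _ ≤ 2 / η * ε := this
      _ = 2 * ε / η := by ring
  have h8 : 3 * c * (τ * v + 2 / η * ∑ i, ∑ e, W e * (√(ρ i (s e) * ρ i (t e)) * err0 e)) ≤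
      3 * c * (τ * v + 2 * ε / η) := by
    apply mul_le_mul_of_nonneg_left _ (by positivity)
    linarith
  linarith

end Pool.Agent.Lib.P325u
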