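import Mathlib
import Pool.Agent.Lib.P325u.Part
import Pool.Agent.Lib.P325u.Stage
import Pool.Agent.Lib.P325u.Rec
import Pool.Agent.Lib.P325s.Soft

/-!
The stage for a set `U` of vertices and the theorem for multigraphs.
-/

open scoped BigOperators
open Pool.Agent.Lib.P325s (soft_decomposition cutEn)

namespace Pool.Agent.Lib.P325u

/-- The degree measure of the multigraph with ends `s`, `t`: the probability that a random end of
a random edge is `x`. -/
noncomputable def vmeas {V ι : Type} [DecidableEq V] [Fintype ι] (s t : ι → V) (x : V) : ℝ :=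
  (∑ e, ((if s e = x then (1 : ℝ) else 0) + (if t e = x then (1 : ℝ) else 0))) /
    (2 * (Fintype.card ι : ℝ))

theorem vmeas_nonneg {V ι : Type} [DecidableEq V] [Fintype ι] (s t : ι → V) (x : V) :
    0 ≤ vmeas s t x := by
  unfold vmeas
  refine div_nonneg (Finset.sum_nonneg fun e _ => ?_) (by positivity)
  split_ifs <;> norm_num

theorem vmeas_pos {V ι : Type} [DecidableEq V] [Fintype ι] (s t : ι → V) (x : V) (e : ι)
    (h : s e = x ∨ t e = x) : 0 < vmeas s t x := by
  unfold vmeas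
  have hc : (0 : ℝ) < Fintype.card ι := by exact_mod_cast Fintype.card_pos_iff.2 ⟨e⟩
  refine div_pos ?_ (by positivity)
  refine Finset.sum_pos' (fun e _ => by split_ifs <;> norm_num) ⟨e, Finset.mem_univ _, ?_⟩
  rcases h with h | h
  · simp only [h, if_true]
    split_ifs <;> norm_num
  · simp only [h, if_true]
    split_ifs <;> norm_num

theorem sum_vmeas_mul {V ι : Type} [Fintype V] [DecidableEq V] [Fintype ι]
    (s t : ι → V) (h : V → ℝ) :
    ∑ x, vmeas s t x * h x = (∑ e, (h (s e) + h (t e))) / (2 * (Fintype.card ι : ℝ)) := by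
  unfold vmeas
  simp_rw [div_mul_eq_mul_div]
  rw [← Finset.sum_div]
  congr 1
  simp_rw [Finset.sum_mul]
  rw [Finset.sum_comm]
  refine Finset.sum_congr rfl fun e _ => ?_
  simp [add_mul, Finset.sum_add_distrib]

theorem sum_vmeas_le {V ι : Type} [Fintype V] [DecidableEq V] [Fintype ι]
    (s t : ι → V) (U : Finset V) : ∑ x ∈ U, vmeas s t x ≤ 1 := by
  have h1 : ∑ x ∈ U, vmeas s t x ≤ ∑ x, vmeas s t x * 1 := by
    simp only [mul_one]
    exact Finset.sum_le_univ_sum_of_nonneg fun x => vmeas_nonneg s t x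
  refine h1.trans ?_
  rw [sum_vmeas_mul]
  refine div_le_one_of_le₀ ?_ (by positivity)
  simp
  linarith

theorem sum_restrict_le {V ι : Type} [Fintype V] [DecidableEq V] [Fintype ι]
    (s t : ι → V) (U : Finset V) :
    ∑ e, (if s e ∈ U ∧ t e ∈ U then 1 / (Fintype.card ι : ℝ) else 0) ≤
      ∑ x ∈ U, vmeas s t x := by
  have h1 : ∑ x ∈ U, vmeas s t x = ∑ x, vmeas s t x * (if x ∈ U then 1 else 0) := by
    simp [Finset.sum_ite_mem]
  rw [h1, sum_vmeas_mul, Finset.sum_div]
  refine Finset.sum_le_sum fun e _ => ?_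
  by_cases ha : s e ∈ U <;> by_cases hb : t e ∈ U <;> simp [ha, hb]
  rw [← two_mul]
  rcases eq_or_ne (Fintype.card ι : ℝ) 0 with hc | hc
  · simp [hc]
  · field_simp
    linarith

/-- The numerical estimate of one stage. -/
theorem stage_numeric {ε x v a : ℝ} (hε : 0 < ε) (hx0 : 0 < x) (hx1 : x ≤ 1)
    (hv0 : 0 < v) (ha : a = 56 * √(ε / x)) (hbig : a ^ 2 < v) :
    4 * √(48 * ε / v / x) * v + 9 * ε +
      3 * (a / √v) * (1 / 24 * v + 2 * ε / (48 * ε / v)) ≤ 3 / 4 * (a * √v) := by
  set q := √(ε / x) with hq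
  set y := √v with hy
  have hq0 : 0 < q := Real.sqrt_pos.2 (by positivity)
  have hy0 : 0 < y := Real.sqrt_pos.2 hv0
  have hq2 : q ^ 2 = ε / x := Real.sq_sqrt (by positivity)
  have hy2 : y ^ 2 = v := Real.sq_sqrt hv0.le
  have ha0 : 0 < a := by rw [ha]; positivity
  have hay : a < y := by
    have : a ^ 2 < y ^ 2 := by rw [hy2]; exact hbig
    exact lt_of_pow_lt_pow_left₀ 2 hy0.le this
  -- first term
  have h1 : √(48 * ε / v / x) * v ≤ 6.93 * (q * y) := by
    have h2 : √(48 * ε / v / x) ≤ 6.93 * (q / y) := by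
      have h3 : 48 * ε / v / x ≤ (6.93 * (q / y)) ^ 2 := by
        rw [mul_pow, div_pow, hq2, hy2]
        have h4 : 48 * ε / v / x = 48 * (ε / x / v) := by field_simp
        rw [h4]
        have h5 : 0 ≤ ε / x / v := by positivity
        nlinarith
      calc √(48 * ε / v / x) ≤ √((6.93 * (q / y)) ^ 2) := Real.sqrt_le_sqrt h3
        _ = 6.93 * (q / y) := Real.sqrt_sq (by positivity)
    calc √(48 * ε / v / x) * v ≤ 6.93 * (q / y) * v := mul_le_mul_of_nonneg_right h2 hv0.le
      _ = 6.93 * (q * y) := by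
        rw [← hy2]
        field_simp
  -- second term
  have h6 : 9 * ε ≤ 0.17 * (q * y) := by
    have h7 : ε = x * q ^ 2 := by rw [hq2]; field_simp
    have h8 : x * q ^ 2 ≤ q ^ 2 := mul_le_of_le_one_left (by positivity) hx1
    have h9 : 56 * q ≤ y := by rw [← ha]; exact hay.le
    have h10 : q * (56 * q) ≤ q * y := mul_le_mul_of_nonneg_left h9 hq0.le
    rw [h7]
    nlinarith
  have h11 : 3 * (a / y) * (1 / 24 * v + 2 * ε / (48 * ε / v)) = 14 * (q * y) := by
    rw [← hy2, ha]
    field_simp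
    ring
  have h12 : 4 * √(48 * ε / v / x) * v = 4 * (√(48 * ε / v / x) * v) := by ring
  rw [h11, h12, ha]
  have h13 : 0 < q * y := by positivity
  nlinarith

theorem sos_rec {V Ω ι : Type} [Fintype V] [DecidableEq V] [Fintype Ω] [DecidableEq Ω]
    [Nonempty Ω] [Fintype ι] [Nonempty ι] (s t : ι → V) (perm : ι → Equiv.Perm Ω) {r : ℕ}
    {E : ((V → Ω) → ℝ) →ₗ[ℝ] ℝ} (hE : IsPseudoExpectation r E)
    {ε x : ℝ} (hε : 0 < ε) (hx0 : 0 < x) (hx1 : x ≤ 1) (hn : 2 ≤ Fintype.card V) {R : ℕ}
    (hR : 576 * (Fintype.card V : ℝ) ^ (x * (1 + Real.log (1 / x))) ≤ (R : ℝ)) (hr : R + 2 ≤ r)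
    (hviol : ∑ e, 1 / (Fintype.card ι : ℝ) * (1 - E (sat (s e) (t e) (perm e))) ≤ ε)
    (U : Finset V) :
    ∃ ℓ : V → Ω, ∑ e, (if s e ∈ U ∧ t e ∈ U then
        1 / (Fintype.card ι : ℝ) * (if perm e (ℓ (s e)) = ℓ (t e) then 0 else 1) else 0) ≤
      56 * √(ε / x) * √(∑ y ∈ U, vmeas s t y) := by
  classical
  have hVne : Nonempty V := ⟨s (Classical.arbitrary ι)⟩
  have hc : (0 : ℝ) < Fintype.card ι := by exact_mod_cast Fintype.card_pos
  have he0 : ∀ e, 0 ≤ 1 - E (sat (s e) (t e) (perm e)) := by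
    intro e
    have h1 : 0 ≤ E ((fun _ => (1 : ℝ)) - sat (s e) (t e) (perm e)) := by
      apply hE.nonneg _ (insert (s e) {t e})
      · have := Finset.card_insert_le (s e) {t e}
        rw [Finset.card_singleton] at this
        omega
      · intro σ σ' h
        have h2 : σ (s e) = σ' (s e) := h _ (by simp)
        have h3 : σ (t e) = σ' (t e) := h _ (by simp)
        simp only [Pi.sub_apply]
        unfold sat
        rw [h2, h3]
      · intro σ
        simp only [Pi.sub_apply]
        unfold sat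
        split_ifs <;> norm_num
    rw [map_sub, hE.one] at h1
    exact h1
  apply recursion s t perm (fun _ => 1 / (Fintype.card ι : ℝ)) (fun _ => by positivity)
    (vmeas s t) (vmeas_nonneg s t) (fun U => sum_restrict_le s t U) (56 * √(ε / x))
    (by positivity)
  intro U hbig
  set v : ℝ := ∑ y ∈ U, vmeas s t y with hv
  set a : ℝ := 56 * √(ε / x) with ha
  have ha0 : 0 < a := by positivity
  have hv0 : 0 < v := lt_of_le_of_lt (sq_nonneg a) hbig
  set n : ℝ := (Fintype.card V : ℝ) with hndef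
  have hn2 : 2 ≤ n := by rw [hndef]; exact_mod_cast hn
  have hn0 : 0 < n := by linarith
  have hlogn : 0 < Real.log n := Real.log_pos (by linarith)
  have hlogx0 : 0 ≤ -Real.log x := by
    have := Real.log_nonpos hx0.le hx1
    linarith
  -- the data of the stage
  set W : ι → ℝ := fun e => if s e ∈ U ∧ t e ∈ U then 1 / (Fintype.card ι : ℝ) else 0 with hW
  set p : V → ℝ := fun y => if y ∈ U then vmeas s t y else 0 with hp
  have hW0 : ∀ e, 0 ≤ W e := fun e => by simp only [hW]; split_ifs <;> positivity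
  have hp0 : ∀ y, 0 ≤ p y := fun y => by
    simp only [hp]
    split_ifs
    · exact vmeas_nonneg s t y
    · exact le_rfl
  have hpv : ∑ y, p y = v := by simp only [hp, hv, Finset.sum_ite_mem, Finset.univ_inter]
  have hWv : ∑ e, W e ≤ v := sum_restrict_le s t U
  have hWp : ∀ e, W e ≠ 0 → 0 < p (s e) ∧ 0 < p (t e) := by
    intro e he
    have h1 : s e ∈ U ∧ t e ∈ U := by
      by_contra hno
      exact he (by simp only [hW, if_neg hno])
    simp only [hp, h1.1, h1.2, if_true]
    exact ⟨vmeas_pos s t _ e (Or.inl rfl), vmeas_pos s t _ e (Or.inr rfl)⟩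
  set η : ℝ := 48 * ε / v with hη
  have hη0 : 0 < η := by positivity
  set K : ℝ := √(η / x) with hK
  have hK2 : K ^ 2 = η / x := Real.sq_sqrt (by positivity)
  set lam : ℝ := η / (x * Real.log n) with hlam
  have hlam0 : 0 < lam := by positivity
  set T0 : ℝ := -Real.log x / (2 * lam) with hT0
  have hT00 : 0 ≤ T0 := by positivity
  have hexp1 : Real.exp (-(2 * lam * T0)) = x := by
    have : -(2 * lam * T0) = Real.log x := by
      rw [hT0]; field_simp
    rw [this, Real.exp_log hx0]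
  have hexp2 : Real.exp (2 * T0 * η) = n ^ (x * (-Real.log x)) := by
    rw [Real.rpow_def_of_pos hn0]
    congr 1
    rw [hT0, hlam]
    field_simp
  have hRcond : n ^ Real.exp (-(2 * lam * T0)) * Real.exp (2 * T0 * η) ≤
      (1 / 24 : ℝ) ^ 2 * R := by
    rw [hexp1, hexp2, ← Real.rpow_add hn0]
    have h1 : x + x * (-Real.log x) = x * (1 + Real.log (1 / x)) := by
      rw [one_div, Real.log_inv]; ring
    rw [h1]
    linarith
  -- the decomposition
  obtain ⟨N, ρ, hρ0, hρ1, hcut, hnash⟩ := soft_decomposition s t hW0 hp0 hlam0.le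
    (fun _ => 1) (fun _ => zero_le_one)
  have hEn : ∑ i, ∑ e, W e * (√(ρ i (s e)) - √(ρ i (t e))) ^ 2 ≤ K ^ 2 * v := by
    have h1 : cutEn s t W (fun _ => 1) = 0 := by
      unfold cutEn
      simp
    rw [h1, zero_add] at hcut
    simp only [mul_one] at hcut
    rw [hpv] at hcut
    have h2 : lam * (v * Real.log n) = K ^ 2 * v := by
      rw [hK2, hlam]
      field_simp
    rw [← hndef, h2] at hcut
    exact hcut
  have herr : ∑ e, W e * (1 - E (sat (s e) (t e) (perm e))) ≤ ε := by
    refine le_trans (Finset.sum_le_sum fun e _ => ?_) hviol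
    apply mul_le_mul_of_nonneg_right _ (he0 e)
    simp only [hW]
    split_ifs
    · exact le_rfl
    · positivity
  obtain ⟨ℓ, hℓ⟩ := stage s t perm W hW0 p hp0 ρ hρ0 hρ1
    (fun e => 1 - E (sat (s e) (t e) (perm e))) he0 ε herr v hpv hWv K (Real.sqrt_nonneg _) hEn
    (1 / 24) η (by norm_num) hη0
    (fun i A₁ A₂ hA₁ hA₂ => part_oracle hE s t perm W hW0 p hp0 hWp (ρ i) (hρ0 i) lam hlam0.le
      (hnash i) (1 / 24) η T0 (by norm_num) hη0 hT00 R hr hRcond A₁ A₂ hA₁ hA₂)
    (a / √v) (by positivity)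
  refine ⟨ℓ, ?_⟩
  have e1 : ∑ e, (if s e ∈ U ∧ t e ∈ U then 1 / (Fintype.card ι : ℝ) *
      (if Option.map (perm e) (ℓ (s e)) = ℓ (t e) then 0 else 1) else 0) =
      ∑ e, W e * (if Option.map (perm e) (ℓ (s e)) = ℓ (t e) then 0 else 1) := by
    apply Finset.sum_congr rfl
    intro e _
    simp only [hW]
    by_cases h : s e ∈ U ∧ t e ∈ U
    · rw [if_pos h, if_pos h]
    · rw [if_neg h, if_neg h, zero_mul]
  have e2 : ∑ y ∈ U, (if ℓ y = none then vmeas s t y else 0) =
      ∑ y, (if ℓ y = none then p y else 0) := by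
    have h1 : ∑ y, (if ℓ y = none then p y else 0) =
        ∑ y ∈ U, (if ℓ y = none then p y else 0) := by
      symm
      apply Finset.sum_subset (Finset.subset_univ _)
      intro y _ hy
      simp only [hp, if_neg hy]
      split_ifs <;> rfl
    rw [h1]
    apply Finset.sum_congr rfl
    intro y hy
    simp only [hp, if_pos hy]
  rw [e1, e2]
  refine hℓ.trans ?_
  have hnum := stage_numeric hε hx0 hx1 hv0 ha hbig
  rw [← hη, ← hK] at hnum
  exact hnum

end Pool.Agent.Lib.P325u
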