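import Mathlib
import Pool.Agent.Lib.P325u.Final
import Pool.Agent.Lib.P325x.Defs

/-!
The theorem for bipartite unique games.
-/

open scoped BigOperators
open Pool.Agent.Lib.P325x (Game)

namespace Pool.Agent.Lib.P325u

theorem satFrac_le_value {U W Ω ι : Type} [Fintype ι] (I : Game U W Ω ι)
    (x : U → Ω) (y : W → Ω) : I.satFrac x y ≤ I.value := by
  unfold Game.value
  refine le_ciSup (f := fun p : (U → Ω) × (W → Ω) => I.satFrac p.1 p.2) ⟨1, ?_⟩ (x, y)
  rintro _ ⟨q, rfl⟩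
  unfold Game.satFrac
  refine div_le_one_of_le₀ ?_ (Nat.cast_nonneg _)
  exact_mod_cast Finset.card_le_univ _

theorem satFrac_eq {U W Ω ι : Type} [Fintype ι] [DecidableEq Ω] (I : Game U W Ω ι)
    (z : U ⊕ W → Ω) :
    I.satFrac (fun u => z (Sum.inl u)) (fun w => z (Sum.inr w)) =
      (Fintype.card ι : ℝ)⁻¹ * ∑ e, sat (Sum.inl (I.src e)) (Sum.inr (I.dst e)) (I.perm e) z := by
  unfold Game.satFrac sat
  rw [Finset.sum_boole, div_eq_inv_mul]
  have h := Finset.filter_congr_decidable (Finset.univ : Finset ι)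
    (fun e => I.perm e (z (Sum.inl (I.src e))) = z (Sum.inr (I.dst e)))
    (fun e => Classical.propDecidable _)
  exact congrArg (fun A : Finset ι => (Fintype.card ι : ℝ)⁻¹ * (A.card : ℝ)) h

/-- Sum of squares of degree `576 * n ^ (x * (1 + log (1 / x))) + 3` finds, in every unique game
with `n` vertices and pseudo-value `≥ 1 - ε`, a labeling of value at least `1 - 56 * √(ε / x)`. -/
theorem sos_main (ε x : ℝ) (hε : 0 < ε) (hx : 0 < x) (hx1 : x ≤ 1)
    (U W Ω ι : Type) [Fintype U] [Fintype W] [Fintype Ω] [Fintype ι] [Nonempty ι]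
    (I : Game U W Ω ι) (r : ℕ)
    (hr : 576 * ((Fintype.card U : ℝ) + Fintype.card W) ^ (x * (1 + Real.log (1 / x))) + 3 ≤ r)
    (E : ((U ⊕ W → Ω) → ℝ) →ₗ[ℝ] ℝ) (hE : IsPseudoExpectation r E)
    (hval : 1 - ε ≤ E (fun z => I.satFrac (fun u => z (Sum.inl u)) (fun w => z (Sum.inr w)))) :
    1 - 56 * √(ε / x) ≤ I.value := by
  classical
  have hc : (0 : ℝ) < Fintype.card ι := by exact_mod_cast Fintype.card_pos
  have hL : Nonempty Ω := by
    by_contra hcon
    have hemp : IsEmpty Ω := not_nonempty_iff.1 hcon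
    have hV : IsEmpty (U ⊕ W → Ω) :=
      ⟨fun z => hemp.false (z (Sum.inl (I.src (Classical.arbitrary ι))))⟩
    have h1 := hE.one
    have h2 : (fun _ => 1 : (U ⊕ W → Ω) → ℝ) = 0 := by
      funext z
      exact (hV.false z).elim
    rw [h2, map_zero] at h1
    norm_num at h1
  set n : ℝ := (Fintype.card U : ℝ) + Fintype.card W with hn
  have hU : 1 ≤ Fintype.card U :=
    Fintype.card_pos_iff.2 ⟨I.src (Classical.arbitrary ι)⟩
  have hW : 1 ≤ Fintype.card W :=
    Fintype.card_pos_iff.2 ⟨I.dst (Classical.arbitrary ι)⟩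
  have hcardN : 2 ≤ Fintype.card (U ⊕ W) := by
    rw [Fintype.card_sum]; omega
  have hcard : (Fintype.card (U ⊕ W) : ℝ) = n := by
    rw [Fintype.card_sum, hn]; push_cast; ring
  have hn0 : 0 < n := by
    rw [← hcard]
    have : 0 < Fintype.card (U ⊕ W) := by omega
    exact_mod_cast this
  set β : ℝ := x * (1 + Real.log (1 / x)) with hβ
  set R : ℕ := ⌈576 * n ^ β⌉₊ with hRdef
  have hR1 : 576 * n ^ β ≤ (R : ℝ) := Nat.le_ceil _
  have hpos : 0 ≤ 576 * n ^ β := by positivity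
  have hR2 : (R : ℝ) < 576 * n ^ β + 1 := Nat.ceil_lt_add_one hpos
  have hRr : R + 2 ≤ r := by
    have : (R : ℝ) + 2 ≤ r := by linarith
    exact_mod_cast this
  have hfun : (fun z : U ⊕ W → Ω => I.satFrac (fun u => z (Sum.inl u)) (fun w => z (Sum.inr w))) =
      (Fintype.card ι : ℝ)⁻¹ • ∑ e, sat (Sum.inl (I.src e)) (Sum.inr (I.dst e)) (I.perm e) := by
    funext z
    rw [satFrac_eq]
    simp only [Pi.smul_apply, Finset.sum_apply, smul_eq_mul]
  have hviol : ∑ e, 1 / (Fintype.card ι : ℝ) *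
      (1 - E (sat (Sum.inl (I.src e)) (Sum.inr (I.dst e)) (I.perm e))) ≤ ε := by
    rw [hfun, map_smul, map_sum, smul_eq_mul] at hval
    rw [← Finset.mul_sum, Finset.sum_sub_distrib, Finset.sum_const, Finset.card_univ,
      nsmul_eq_mul, mul_one, mul_sub, one_div, inv_mul_cancel₀ hc.ne']
    linarith
  obtain ⟨ℓ, hℓ⟩ := sos_rec (fun e => Sum.inl (I.src e)) (fun e => Sum.inr (I.dst e)) I.perm hE
    hε hx hx1 hcardN (by rw [hcard]; exact hR1) hRr hviol Finset.univ
  simp only [Finset.mem_univ, and_self, if_true] at hℓ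
  rw [← Finset.mul_sum] at hℓ
  have hv1 := sum_vmeas_le (fun e => (Sum.inl (I.src e) : U ⊕ W)) (fun e => Sum.inr (I.dst e))
    Finset.univ
  have h2 : 56 * √(ε / x) * √(∑ y, vmeas (fun e => (Sum.inl (I.src e) : U ⊕ W))
      (fun e => Sum.inr (I.dst e)) y) ≤ 56 * √(ε / x) := by
    apply mul_le_of_le_one_right (by positivity)
    exact Real.sqrt_le_one.2 hv1
  have hsat : 1 - 1 / (Fintype.card ι : ℝ) *
      (∑ e, (if I.perm e (ℓ (Sum.inl (I.src e))) = ℓ (Sum.inr (I.dst e))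
      then (0 : ℝ) else 1)) = I.satFrac (fun u => ℓ (Sum.inl u)) (fun w => ℓ (Sum.inr w)) := by
    rw [satFrac_eq, one_div]
    have h3 : (∑ e, (if I.perm e (ℓ (Sum.inl (I.src e))) = ℓ (Sum.inr (I.dst e))
      then (0 : ℝ) else 1)) + ∑ e, sat (Sum.inl (I.src e)) (Sum.inr (I.dst e)) (I.perm e) ℓ =
      (Fintype.card ι : ℝ) := by
      rw [← Finset.sum_add_distrib]
      unfold sat
      rw [Finset.sum_congr rfl (g := fun _ => (1 : ℝ)) (fun e _ => by split_ifs <;> norm_num)]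
      simp
    have h4 : (Fintype.card ι : ℝ)⁻¹ * (Fintype.card ι : ℝ) = 1 := inv_mul_cancel₀ hc.ne'
    rw [← h3, mul_add, h3] at h4
    linarith
  have := satFrac_le_value I (fun u => ℓ (Sum.inl u)) (fun w => ℓ (Sum.inr w))
  linarith

end Pool.Agent.Lib.P325u
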